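import Pool.Agent.Run7.h515.SU.Kst
import Pool.Agent.E8helper87.RG.Grow

/-!
# Graphs with large girth and supports of the balls
-/

set_option autoImplicit false

namespace Pool.Agent.Run7.h515.SU

open SimpleGraph Finset
open scoped Classical
open Pool.Agent.E8helper87.RG (path_unique)

theorem edist_le_iff {V : Type*} {G : SimpleGraph V} {x y : V} {j : ℕ} :
    G.edist x y ≤ j ↔ ∃ p : G.Walk x y, p.IsPath ∧ p.length ≤ j := by
  constructor
  · intro h
    have hne : G.edist x y ≠ ⊤ := fun h' => by rw [h'] at h; exact absurd h (by simp)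
    obtain ⟨p, hp⟩ := exists_walk_of_edist_ne_top hne
    rw [← hp] at h
    have h1 : p.length ≤ j := by exact_mod_cast h
    exact ⟨p.bypass, p.bypass_isPath, (p.length_bypass_le_length).trans h1⟩
  · rintro ⟨p, -, hp⟩
    exact (edist_le p).trans (by exact_mod_cast hp)

/-- The balls are connected in the graph itself. -/
theorem ball_conn {V : Type*} (G : SimpleGraph V) (j : ℕ) (x : V) :
    (G.induce {y | G.edist x y ≤ j}).Preconnected := by
  have h0 : x ∈ {y | G.edist x y ≤ j} := by
    show G.edist x x ≤ j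
    rw [edist_self]
    exact zero_le
  have key : ∀ (y : V) (p : G.Walk y x) (_ : p.length ≤ j) (hy : y ∈ {y | G.edist x y ≤ j}),
      (G.induce {y | G.edist x y ≤ j}).Reachable ⟨y, hy⟩ ⟨x, h0⟩ := by
    intro y p
    induction p with
    | nil => intro _ _; exact Reachable.refl _
    | @cons a b c h q ih =>
      intro hl hy
      rw [Walk.length_cons] at hl
      have hb : G.edist c b ≤ j := by
        rw [SimpleGraph.edist_comm]
        exact (edist_le q).trans (by exact_mod_cast (by omega : q.length ≤ j))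
      have h1 : (G.induce {y | G.edist c y ≤ j}).Adj ⟨a, hy⟩ ⟨b, hb⟩ := h
      exact h1.reachable.trans (ih h0 (by omega) hb)
  intro a b
  have hw : ∀ a : {y | G.edist x y ≤ j}, (G.induce {y | G.edist x y ≤ j}).Reachable a ⟨x, h0⟩ := by
    intro a
    have ha : G.edist a x ≤ j := by rw [SimpleGraph.edist_comm]; exact a.2
    obtain ⟨p, -, hp⟩ := edist_le_iff.1 ha
    exact key a p hp a.2
  exact (hw a).trans (hw b).symm

theorem mem_cover {V : Type*} [Fintype V] {T : Finset (Sym2 V)} {v : V} :
    v ∈ (cover T : Set V) ↔ ∃ e ∈ T, v ∈ e := by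
  unfold cover
  rw [Finset.mem_coe, Finset.mem_filter]
  exact ⟨fun h => h.2, fun h => ⟨Finset.mem_univ _, h⟩⟩

variable {n : ℕ} {G : SimpleGraph (Fin n)}

theorem not_mem_of_path {m : ℕ} (hc : ∀ (v : Fin n) (w : G.Walk v v), w.IsCycle → 2 * m < w.length)
    {x a b v : Fin n} (h : G.Adj x b) (q : G.Walk b v) (hP : (Walk.cons h q).IsPath)
    (hlen : q.length + 1 ≤ m) (h' : G.Adj x a) (hab : b ≠ a) : a ∉ (Walk.cons h q).support := by
  intro ha
  rw [Walk.support_cons, List.mem_cons] at ha
  rcases ha with ha | ha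
  · exact h'.ne ha.symm
  have h1 : (Walk.cons h (q.takeUntil a ha)).IsPath := by
    rw [Walk.cons_isPath_iff] at hP ⊢
    exact ⟨hP.1.takeUntil ha, fun h2 => hP.2 (q.support_takeUntil_subset_support ha h2)⟩
  have h2 : (Walk.cons h' (Walk.nil : G.Walk a a)).IsPath := by
    rw [Walk.cons_isPath_iff]
    exact ⟨Walk.IsPath.nil, by simp [h'.ne]⟩
  have h3 := path_unique hc _ _ h1 h2 (by
    rw [Walk.length_cons]
    have := q.length_takeUntil_le_length ha
    omega) (by rw [Walk.length_cons, Walk.length_nil]; omega)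
  have h4 := congrArg (fun w => w.getVert 1) h3
  simp only [Walk.getVert_cons_succ, Walk.getVert_zero] at h4
  exact hab h4

theorem ball_card_le (Δ : ℕ) (hdeg : ∀ u, (univ.filter (fun v => G.Adj u v)).card ≤ Δ)
    (u : Fin n) (j : ℕ) : (univ.filter (fun a => G.edist a u ≤ j)).card ≤ (Δ + 1) ^ j := by
  refine le_trans (Finset.card_le_card ?_)
    (ball_card G (Δ + 1) (fun u => Nat.lt_succ_of_le (hdeg u)) u j)
  intro a ha
  rw [Finset.mem_filter] at ha ⊢
  obtain ⟨p, -, hp⟩ := edist_le_iff.1 ha.2
  exact ⟨Finset.mem_univ _, p, hp⟩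

/-- Two vertices lie together in few balls of radius `j < m`. -/
theorem codeg {m : ℕ} (hc : ∀ (v : Fin n) (w : G.Walk v v), w.IsCycle → 2 * m < w.length)
    (Δ : ℕ) (hdeg : ∀ u, (univ.filter (fun v => G.Adj u v)).card ≤ Δ) (j : ℕ) :
    j + 1 ≤ m → ∀ u v : Fin n, u ≠ v →
    (univ.filter (fun x => G.edist x u ≤ j ∧ G.edist x v ≤ j)).card ≤
      3 * j * (Δ + 1) ^ (j - 1) := by
  induction j with
  | zero =>
    intro _ u v huv
    rw [Finset.filter_eq_empty_iff.2]
    · simp
    · rintro x _ ⟨h1, h2⟩
      have h3 : G.edist x u = 0 := le_antisymm (by exact_mod_cast h1) zero_le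
      have h4 : G.edist x v = 0 := le_antisymm (by exact_mod_cast h2) zero_le
      rw [edist_eq_zero_iff] at h3 h4
      exact huv (h3.symm.trans h4)
  | succ j ih =>
    intro hj u v huv
    have ih' := ih (by omega) u v huv
    set C := univ.filter (fun x => G.edist x u ≤ j ∧ G.edist x v ≤ j) with hC
    set T := univ.filter (fun x => ∃ a, G.Adj x a ∧ G.edist a u ≤ j ∧
      ∃ (b : Fin n) (h : G.Adj x b) (q : G.Walk b v), (Walk.cons h q).IsPath ∧ q.length ≤ j ∧
        b ≠ a) with hT
    have hsub : univ.filter (fun x => G.edist x u ≤ (j + 1 : ℕ) ∧ G.edist x v ≤ (j + 1 : ℕ)) ⊆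
        insert u (insert v (C.biUnion (fun a => univ.filter (fun x => G.Adj a x)) ∪ T)) := by
      intro x hx
      rw [Finset.mem_filter] at hx
      obtain ⟨-, h1, h2⟩ := hx
      rw [Finset.mem_insert, Finset.mem_insert, Finset.mem_union]
      by_cases hxu : x = u
      · exact Or.inl hxu
      by_cases hxv : x = v
      · exact Or.inr (Or.inl hxv)
      right; right
      obtain ⟨p, hp, hpl⟩ := edist_le_iff.1 h1
      obtain ⟨p', hp', hpl'⟩ := edist_le_iff.1 h2
      obtain ⟨a, ha, q, hq⟩ := Walk.exists_eq_cons_of_ne hxu p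
      obtain ⟨b, hb, q', hq'⟩ := Walk.exists_eq_cons_of_ne hxv p'
      rw [hq, Walk.length_cons] at hpl
      rw [hq', Walk.length_cons] at hpl'
      have hau : G.edist a u ≤ j := (edist_le q).trans (by exact_mod_cast (by omega))
      have hbv : G.edist b v ≤ j := (edist_le q').trans (by exact_mod_cast (by omega))
      by_cases hab : b = a
      · left
        rw [Finset.mem_biUnion]
        refine ⟨a, Finset.mem_filter.2 ⟨Finset.mem_univ _, hau, by rw [← hab]; exact hbv⟩, ?_⟩
        exact Finset.mem_filter.2 ⟨Finset.mem_univ _, ha.symm⟩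
      · right
        rw [hT, Finset.mem_filter]
        exact ⟨Finset.mem_univ _, a, ha, hau, b, hb, q', by rw [← hq']; exact hp', by omega, hab⟩
    have hTcard : T.card ≤ (Δ + 1) ^ j := by
      refine le_trans ?_ (ball_card_le Δ hdeg u j)
      have hch : ∀ x : Fin n, ∃ a, x ∈ T → (G.Adj x a ∧ G.edist a u ≤ j ∧
          ∃ (b : Fin n) (h : G.Adj x b) (q : G.Walk b v), (Walk.cons h q).IsPath ∧ q.length ≤ j ∧
            b ≠ a) := by
        intro x
        by_cases hx : x ∈ T
        · rw [hT, Finset.mem_filter] at hx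
          obtain ⟨a, ha⟩ := hx.2
          exact ⟨a, fun _ => ha⟩
        · exact ⟨x, fun h => absurd h hx⟩
      choose f hf using hch
      refine Finset.card_le_card_of_injOn f ?_ ?_
      · intro x hx
        rw [Finset.mem_coe] at hx ⊢
        exact Finset.mem_filter.2 ⟨Finset.mem_univ _, (hf x hx).2.1⟩
      · intro x hx y hy hxy
        rw [Finset.mem_coe] at hx hy
        obtain ⟨h1, -, b, hb, q, hq1, hq2, hq3⟩ := hf x hx
        obtain ⟨h1', -, b', hb', q', hq1', hq2', hq3'⟩ := hf y hy
        rw [← hxy] at h1' hq3'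
        have h2 : (Walk.cons h1.symm (Walk.cons hb q)).IsPath := by
          rw [Walk.cons_isPath_iff]
          exact ⟨hq1, not_mem_of_path hc hb q hq1 (by omega) h1 hq3⟩
        have h2' : (Walk.cons h1'.symm (Walk.cons hb' q')).IsPath := by
          rw [Walk.cons_isPath_iff]
          exact ⟨hq1', not_mem_of_path hc hb' q' hq1' (by omega) h1' hq3'⟩
        have h3 := path_unique hc _ _ h2 h2' (by simp only [Walk.length_cons]; omega)
          (by simp only [Walk.length_cons]; omega)
        have h4 := congrArg (fun w => w.getVert 1) h3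
        simp only [Walk.getVert_cons_succ, Walk.getVert_zero] at h4
        exact h4
    have hbi : (C.biUnion (fun a => univ.filter (fun x => G.Adj a x))).card ≤
        3 * j * (Δ + 1) ^ j := by
      refine (Finset.card_biUnion_le_card_mul _ _ Δ (fun a _ => hdeg a)).trans ?_
      rcases Nat.eq_zero_or_pos j with h0 | h0
      · have h5 : C.card = 0 := by
          have h6 : 3 * j * (Δ + 1) ^ (j - 1) = 0 := by rw [h0]; simp
          omega
        rw [h5]
        simp
      · calc C.card * Δ ≤ (3 * j * (Δ + 1) ^ (j - 1)) * (Δ + 1) :=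
              Nat.mul_le_mul ih' (Nat.le_succ _)
          _ = 3 * j * (Δ + 1) ^ (j - 1 + 1) := by rw [pow_succ]; ring
          _ = 3 * j * (Δ + 1) ^ j := by rw [Nat.sub_add_cancel h0]
    refine (Finset.card_le_card hsub).trans ?_
    have h5 := Finset.card_insert_le u (insert v (C.biUnion (fun a => univ.filter
      (fun x => G.Adj a x)) ∪ T))
    have h6 := Finset.card_insert_le v (C.biUnion (fun a => univ.filter (fun x => G.Adj a x)) ∪ T)
    have h7 := Finset.card_union_le (C.biUnion (fun a => univ.filter (fun x => G.Adj a x))) T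
    have h8 : 1 ≤ (Δ + 1) ^ j := Nat.one_le_pow _ _ (Nat.succ_pos _)
    have h9 : 3 * (j + 1) * (Δ + 1) ^ (j + 1 - 1) = 3 * j * (Δ + 1) ^ j + 3 * (Δ + 1) ^ j := by
      rw [Nat.add_sub_cancel]; ring
    rw [h9]
    omega

/-- The balls of radius `j ≤ m` are large. -/
theorem ball_ge {m : ℕ} (hc : ∀ (v : Fin n) (w : G.Walk v v), w.IsCycle → 2 * m < w.length)
    (q : ℕ) (hdeg : ∀ u, q + 1 ≤ (univ.filter (fun v => G.Adj u v)).card) (x : Fin n) (j : ℕ)
    (hj : j ≤ m) : q ^ j ≤ {y | G.edist x y ≤ j}.ncard := by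
  set M : ℕ → Finset (Fin n) := fun j => univ.filter (fun y => ∃ p : G.Walk y x, p.IsPath ∧
    p.length = j) with hM
  have key : ∀ j ≤ m, q ^ j ≤ (M j).card := by
    intro j
    induction j with
    | zero =>
      intro _
      rw [pow_zero]
      exact Finset.card_pos.2 ⟨x, Finset.mem_filter.2 ⟨Finset.mem_univ _, Walk.nil,
        Walk.IsPath.nil, rfl⟩⟩
    | succ j ih =>
      intro hj
      have ih' := ih (by omega)
      have h1 := Finset.card_mul_le_card_mul (s := M j) (t := M (j + 1)) (m := q) (n := 1)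
        (fun y w => ∃ (h : G.Adj w y) (p : G.Walk y x), (Walk.cons h p).IsPath ∧ p.length = j)
        ?_ ?_
      · rw [mul_one] at h1
        rw [pow_succ]
        exact (Nat.mul_le_mul_right _ ih').trans h1
      · intro y hy
        rw [Finset.mem_filter] at hy
        obtain ⟨-, p, hp, hpl⟩ := hy
        have h2 : (univ.filter (fun v => G.Adj y v)).erase (p.getVert 1) ⊆
            Finset.bipartiteAbove (fun y w => ∃ (h : G.Adj w y) (p : G.Walk y x),
              (Walk.cons h p).IsPath ∧ p.length = j) (M (j + 1)) y := by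
          intro w hw
          rw [Finset.mem_erase, Finset.mem_filter] at hw
          obtain ⟨hw1, -, hw2⟩ := hw
          have hpath : (Walk.cons hw2.symm p).IsPath := by
            rw [Walk.cons_isPath_iff]
            refine ⟨hp, ?_⟩
            by_cases hyx : y = x
            · subst hyx
              have hnil : p.Nil := Walk.isPath_iff_nil.1 hp
              rw [Walk.eq_nil_iff_nil.2 hnil]
              simp [hw2.ne']
            · obtain ⟨b, hb, r, hr⟩ := Walk.exists_eq_cons_of_ne hyx p
              rw [hr]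
              rw [hr] at hp hpl hw1
              rw [Walk.length_cons] at hpl
              simp only [Walk.getVert_cons_succ, Walk.getVert_zero] at hw1
              exact not_mem_of_path hc hb r hp (by omega) hw2 (Ne.symm hw1)
          unfold Finset.bipartiteAbove
          rw [Finset.mem_filter]
          refine ⟨?_, hw2.symm, p, hpath, hpl⟩
          exact Finset.mem_filter.2 ⟨Finset.mem_univ _, Walk.cons hw2.symm p, hpath, by
            rw [Walk.length_cons, hpl]⟩
        have h3 := Finset.card_le_card h2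
        have h4 := Finset.pred_card_le_card_erase (s := univ.filter (fun v => G.Adj y v))
          (a := p.getVert 1)
        have h5 := hdeg y
        omega
      · intro w _
        rw [Finset.card_le_one]
        intro y hy y' hy'
        unfold Finset.bipartiteBelow at hy hy'
        rw [Finset.mem_filter] at hy hy'
        obtain ⟨-, h, p, hp, hpl⟩ := hy
        obtain ⟨-, h', p', hp', hpl'⟩ := hy'
        have h3 := path_unique hc _ _ hp hp' (by rw [Walk.length_cons]; omega)
          (by rw [Walk.length_cons]; omega)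
        have h4 := congrArg (fun w => w.getVert 1) h3
        simp only [Walk.getVert_cons_succ, Walk.getVert_zero] at h4
        exact h4
  refine (key j hj).trans ?_
  rw [← Set.ncard_coe_finset]
  refine Set.ncard_le_ncard ?_ (Set.toFinite _)
  intro y hy
  rw [Finset.mem_coe, Finset.mem_filter] at hy
  obtain ⟨-, p, hp, hpl⟩ := hy
  show G.edist x y ≤ j
  rw [SimpleGraph.edist_comm]
  exact edist_le_iff.2 ⟨p, hp, hpl.le⟩

/-- The main bound for supports of the balls. -/
theorem ball_main {m : ℕ} (hc : ∀ (v : Fin n) (w : G.Walk v v), w.IsCycle → 2 * m < w.length)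
    (Δ : ℕ) (hdeg : ∀ u, (univ.filter (fun v => G.Adj u v)).card ≤ Δ) (j : ℕ) (hj : j + 1 ≤ m)
    (H : SimpleGraph (Fin n)) :
    ∑ x, {y | G.edist x y ≤ j}.ncard ≤
      ∑ x, Nat.card (H.induce {y | G.edist x y ≤ j}).ConnectedComponent +
        3 * j * (Δ + 1) ^ (j - 1) * H.edgeSet.ncard := by
  have hch := fun x => exists_forest H {y | G.edist x y ≤ j}
  choose F hF1 hF2 hF3 using hch
  have h1 : ∑ x, (F x).card ≤ 3 * j * (Δ + 1) ^ (j - 1) * H.edgeSet.ncard := by
    have h2 : H.edgeFinset.card = H.edgeSet.ncard := by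
      rw [← Set.ncard_coe_finset, SimpleGraph.coe_edgeFinset]
    have h3 : ∀ x ∈ (univ : Finset (Fin n)), (F x).card =
        ∑ e ∈ H.edgeFinset, if e ∈ F x then 1 else 0 := by
      intro x _
      rw [← Finset.card_filter]
      congr 1
      ext e
      rw [Finset.mem_filter, SimpleGraph.mem_edgeFinset]
      exact ⟨fun h => ⟨hF1 x h, h⟩, fun h => h.2⟩
    rw [Finset.sum_congr rfl h3, Finset.sum_comm, ← h2, mul_comm, ← smul_eq_mul,
      ← Finset.sum_const]
    refine Finset.sum_le_sum fun e he => ?_
    rw [← Finset.card_filter]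
    rw [SimpleGraph.mem_edgeFinset] at he
    induction e using Sym2.ind with
    | h u v =>
      rw [SimpleGraph.mem_edgeSet] at he
      refine le_trans (Finset.card_le_card ?_) (codeg hc Δ hdeg j hj u v he.ne)
      intro x hx
      rw [Finset.mem_filter] at hx ⊢
      have h4 := (hF3 x {s(u, v)} (Finset.singleton_subset_iff.2 hx.2)
        (Finset.singleton_nonempty _)).1
      refine ⟨Finset.mem_univ _, ?_, ?_⟩
      · exact h4 (mem_cover.2 ⟨s(u, v), Finset.mem_singleton_self _, Sym2.mem_iff.2 (Or.inl rfl)⟩)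
      · exact h4 (mem_cover.2 ⟨s(u, v), Finset.mem_singleton_self _, Sym2.mem_iff.2 (Or.inr rfl)⟩)
  calc ∑ x, {y | G.edist x y ≤ j}.ncard
      ≤ ∑ x, ((F x).card + Nat.card (H.induce {y | G.edist x y ≤ j}).ConnectedComponent) :=
        Finset.sum_le_sum fun x _ => hF2 x
    _ = ∑ x, (F x).card + ∑ x, Nat.card (H.induce {y | G.edist x y ≤ j}).ConnectedComponent :=
        Finset.sum_add_distrib
    _ ≤ _ := by omega

end Pool.Agent.Run7.h515.SU
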