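import Pool.Agent.Run7.h515.SU.Ball

/-!
# Graphs with large girth and supports of the balls: orders of magnitude
-/

set_option autoImplicit false

namespace Pool.Agent.Run7.h515.SU

open SimpleGraph Finset
open scoped Classical

theorem girth_cycles {V : Type*} {G : SimpleGraph V} {m : ℕ} (h : ((2 * m : ℕ) : ℕ∞) < G.egirth) :
    ∀ (v : V) (w : G.Walk v v), w.IsCycle → 2 * m < w.length := by
  intro v w hw
  have h1 := h.trans_le (egirth_le_length hw)
  exact_mod_cast h1

theorem nbr_card {n : ℕ} (G : SimpleGraph (Fin n)) (u : Fin n) :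
    (G.neighborSet u).ncard = (univ.filter (fun v => G.Adj u v)).card := by
  rw [← Set.ncard_coe_finset]
  congr 1
  ext y
  simp

theorem y_tendsto (m : ℕ) (hm : 1 ≤ m) :
    Filter.Tendsto (fun n : ℕ => (n : ℝ) ^ (1 / (m : ℝ))) Filter.atTop Filter.atTop :=
  (tendsto_rpow_atTop (by
    have : (0 : ℝ) < m := by exact_mod_cast hm
    positivity)).comp tendsto_natCast_atTop_atTop

/-- Lower bound for the balls. -/
theorem ball_lower {n m : ℕ} {G : SimpleGraph (Fin n)} (hg : ((2 * m : ℕ) : ℕ∞) < G.egirth)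
    (c y : ℝ) (hc : 0 < c) (hy : 2 / c ≤ y) (hy0 : 0 < y)
    (hdeg : ∀ u, c * y ≤ (G.neighborSet u).ncard) (x : Fin n) (j : ℕ) (hj : j ≤ m) :
    (c / 2 * y) ^ j ≤ {z | G.edist x z ≤ j}.ncard := by
  have hcy : 0 < c * y := by positivity
  obtain ⟨q, hq⟩ : ∃ q, ⌈c * y⌉₊ = q + 1 := ⟨⌈c * y⌉₊ - 1, by
    have := Nat.ceil_pos.2 hcy
    omega⟩
  have h1 : ∀ u, q + 1 ≤ (univ.filter (fun v => G.Adj u v)).card := by
    intro u
    rw [← hq, ← nbr_card]
    exact Nat.ceil_le.2 (hdeg u)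
  have h2 := ball_ge (girth_cycles hg) q h1 x j hj
  have h3 : c / 2 * y ≤ q := by
    have h4 : c * y ≤ ⌈c * y⌉₊ := Nat.le_ceil _
    rw [hq] at h4
    push_cast at h4
    have h5 : 2 ≤ c * y := by
      rw [div_le_iff₀ hc] at hy
      linarith
    nlinarith
  calc (c / 2 * y) ^ j ≤ (q : ℝ) ^ j := pow_le_pow_left₀ (by positivity) h3 j
    _ ≤ _ := by exact_mod_cast h2

/-- For radii `j < m` all supports of the balls have as many edges as the graph. -/
theorem ball_order (m j : ℕ) (hj1 : 1 ≤ j) (hj : j + 1 ≤ m) (c C : ℝ) (hc : 0 < c) (hC : 0 < C) :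
    ∃ (c' : ℝ) (n₀ : ℕ), 0 < c' ∧ ∀ n : ℕ, n₀ ≤ n → ∀ G H : SimpleGraph (Fin n),
      ((2 * m : ℕ) : ℕ∞) < G.egirth →
      (∀ u, c * (n : ℝ) ^ (1 / (m : ℝ)) ≤ (G.neighborSet u).ncard ∧
        ((G.neighborSet u).ncard : ℝ) ≤ C * (n : ℝ) ^ (1 / (m : ℝ))) →
      (∀ x, (H.induce {y | G.edist x y ≤ j}).Preconnected) →
      c' * (n : ℝ) ^ (1 + 1 / (m : ℝ)) ≤ H.edgeSet.ncard := by
  have hjR : (1 : ℝ) ≤ j := by exact_mod_cast hj1
  obtain ⟨n₀, hn₀⟩ := Filter.eventually_atTop.1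
    ((y_tendsto m (by omega)).eventually_ge_atTop (max (4 / c) 1))
  refine ⟨(c / 2) ^ j / (6 * j * (C + 1) ^ (j - 1)), max n₀ 1, by positivity, ?_⟩
  intro n hn G H hg hdeg hconn
  have hn1 : 1 ≤ n := le_trans (le_max_right _ _) hn
  have hnR : (0 : ℝ) < n := by exact_mod_cast hn1
  have hy := hn₀ n (le_trans (le_max_left _ _) hn)
  set y : ℝ := (n : ℝ) ^ (1 / (m : ℝ)) with hydef
  have hy1 : 1 ≤ y := (le_max_right _ _).trans hy
  have hy2 : 4 / c ≤ y := (le_max_left _ _).trans hy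
  have hy0 : 0 < y := by linarith
  have hy3 : 2 / c ≤ y := by
    refine le_trans ?_ hy2
    gcongr
    norm_num
  have hball := fun x => ball_lower hg c y hc hy3 hy0 (fun u => (hdeg u).1) x j (by omega)
  have hmax : ∀ u, (univ.filter (fun v => G.Adj u v)).card ≤ ⌊C * y⌋₊ := by
    intro u
    rw [← nbr_card]
    exact Nat.le_floor (hdeg u).2
  have hmain := ball_main (girth_cycles hg) ⌊C * y⌋₊ hmax j hj H
  have h1 : ∑ x, Nat.card (H.induce {y | G.edist x y ≤ j}).ConnectedComponent ≤ n := by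
    refine (Finset.sum_le_sum fun x _ => card_component_le (hconn x)).trans ?_
    simp
  have h2 : ∑ x, ({y | G.edist x y ≤ j}.ncard : ℝ) ≤
      n + 3 * j * ((⌊C * y⌋₊ : ℝ) + 1) ^ (j - 1) * H.edgeSet.ncard := by
    have h3 : ∑ x, {y | G.edist x y ≤ j}.ncard ≤
        n + 3 * j * (⌊C * y⌋₊ + 1) ^ (j - 1) * H.edgeSet.ncard := by omega
    exact_mod_cast h3
  have h3 : (n : ℝ) * (c / 2 * y) ^ j ≤ ∑ x, ({y | G.edist x y ≤ j}.ncard : ℝ) := by
    have h4 := Finset.sum_le_sum (s := univ) fun x _ => hball x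
    rwa [Finset.sum_const, Finset.card_univ, Fintype.card_fin, nsmul_eq_mul] at h4
  have h4 : (⌊C * y⌋₊ : ℝ) + 1 ≤ (C + 1) * y := by
    have h5 : (⌊C * y⌋₊ : ℝ) ≤ C * y := Nat.floor_le (by positivity)
    linarith
  set E : ℝ := ((H.edgeSet.ncard : ℕ) : ℝ) with hE
  have hE0 : 0 ≤ E := Nat.cast_nonneg _
  have h5 : (n : ℝ) * (c / 2 * y) ^ j ≤ n + 3 * j * ((C + 1) * y) ^ (j - 1) * E := by
    refine h3.trans (h2.trans ?_)
    gcongr
  have h6 : 2 ≤ (c / 2 * y) ^ j := by
    have h7 : 2 ≤ c / 2 * y := by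
      rw [div_le_iff₀ hc] at hy2
      linarith
    calc (2 : ℝ) ≤ c / 2 * y := h7
      _ = (c / 2 * y) ^ 1 := (pow_one _).symm
      _ ≤ (c / 2 * y) ^ j := pow_le_pow_right₀ (by linarith) hj1
  have h7 : (n : ℝ) * (c / 2 * y) ^ j ≤ 6 * j * ((C + 1) * y) ^ (j - 1) * E := by
    nlinarith
  have h8 : (n : ℝ) ^ (1 + 1 / (m : ℝ)) = n * y := by
    rw [Real.rpow_add hnR, Real.rpow_one]
  rw [h8, div_mul_eq_mul_div, div_le_iff₀ (by positivity)]
  -- divide by `y ^ (j - 1)`
  have h9 : y ^ j = y ^ (j - 1) * y := by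
    rw [← pow_succ, Nat.sub_add_cancel hj1]
  rw [mul_pow, mul_pow, h9] at h7
  have hyp : 0 < y ^ (j - 1) := by positivity
  have h10 : y ^ (j - 1) * ((c / 2) ^ j * (n * y)) ≤
      y ^ (j - 1) * (E * (6 * j * (C + 1) ^ (j - 1))) := by
    calc y ^ (j - 1) * ((c / 2) ^ j * (n * y)) = n * ((c / 2) ^ j * (y ^ (j - 1) * y)) := by ring
      _ ≤ 6 * j * ((C + 1) ^ (j - 1) * y ^ (j - 1)) * E := h7
      _ = _ := by ring
  exact le_of_mul_le_mul_left h10 hyp

/-- A small hitting set for large sets. -/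
theorem exists_hitting {n : ℕ} (B : Fin n → Finset (Fin n)) (β : ℝ) (hβ1 : β ≤ 1)
    (hB : ∀ x, β * n ≤ (B x).card) (r : ℕ) :
    ∃ R : Finset (Fin n), R.card ≤ r ∧
      ((univ.filter (fun x => ∀ v ∈ R, v ∉ B x)).card : ℝ) ≤ (1 - β) ^ r * n := by
  induction r with
  | zero =>
    refine ⟨∅, by simp, ?_⟩
    rw [pow_zero, one_mul]
    have := Finset.card_le_univ (univ.filter (fun x : Fin n => ∀ v ∈ (∅ : Finset (Fin n)), v ∉ B x))
    rw [Fintype.card_fin] at this
    exact_mod_cast this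
  | succ r ih =>
    obtain ⟨R, hR, hcard⟩ := ih
    set U := univ.filter (fun x => ∀ v ∈ R, v ∉ B x) with hU
    by_cases hn : n = 0
    · subst hn
      refine ⟨R, by omega, ?_⟩
      have : univ.filter (fun x => ∀ v ∈ R, v ∉ B x) = ∅ := by
        ext x
        exact x.elim0
      rw [this]
      simp
    have hnpos : (0 : ℝ) < n := by exact_mod_cast Nat.pos_of_ne_zero hn
    -- a vertex in many of the sets
    have hex : ∃ v : Fin n, β * U.card ≤ (U.filter (fun x => v ∈ B x)).card := by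
      by_contra hno
      push Not at hno
      have h1 : ∑ v : Fin n, ((U.filter (fun x => v ∈ B x)).card : ℝ) < n * (β * U.card) := by
        have hne : (univ : Finset (Fin n)).Nonempty := ⟨⟨0, Nat.pos_of_ne_zero hn⟩, mem_univ _⟩
        have := Finset.sum_lt_sum_of_nonempty hne (fun v _ => hno v)
        rwa [Finset.sum_const, Finset.card_univ, Fintype.card_fin, nsmul_eq_mul] at this
      have h2 : ∑ v : Fin n, (U.filter (fun x => v ∈ B x)).card = ∑ x ∈ U, (B x).card := by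
        have h3 : ∀ v ∈ (univ : Finset (Fin n)), (U.filter (fun x => v ∈ B x)).card =
            ∑ x ∈ U, if v ∈ B x then 1 else 0 := fun v _ => Finset.card_filter _ _
        rw [Finset.sum_congr rfl h3, Finset.sum_comm]
        refine Finset.sum_congr rfl fun x _ => ?_
        rw [← Finset.card_filter]
        congr 1
        ext v
        simp
      have h4 : ∑ v : Fin n, ((U.filter (fun x => v ∈ B x)).card : ℝ) =
          ∑ x ∈ U, ((B x).card : ℝ) := by exact_mod_cast h2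
      have h5 : (U.card : ℝ) * (β * n) ≤ ∑ x ∈ U, ((B x).card : ℝ) := by
        rw [← nsmul_eq_mul, ← Finset.sum_const]
        exact Finset.sum_le_sum fun x _ => hB x
      rw [h4] at h1
      nlinarith
    obtain ⟨v, hv⟩ := hex
    refine ⟨insert v R, (Finset.card_insert_le _ _).trans (by omega), ?_⟩
    have h6 : univ.filter (fun x => ∀ w ∈ insert v R, w ∉ B x) ⊆
        U.filter (fun x => ¬ v ∈ B x) := by
      intro x hx
      rw [Finset.mem_filter] at hx
      rw [Finset.mem_filter]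
      refine ⟨Finset.mem_filter.2 ⟨Finset.mem_univ _, fun w hw => hx.2 w
        (Finset.mem_insert_of_mem hw)⟩, hx.2 v (Finset.mem_insert_self _ _)⟩
    have h7 := Finset.card_filter_add_card_filter_not (s := U) (fun x => v ∈ B x)
    have h8 : ((univ.filter (fun x => ∀ w ∈ insert v R, w ∉ B x)).card : ℝ) ≤
        (U.filter (fun x => ¬ v ∈ B x)).card := by exact_mod_cast Finset.card_le_card h6
    have h9 : ((U.filter (fun x => v ∈ B x)).card : ℝ) + (U.filter (fun x => ¬ v ∈ B x)).card =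
        U.card := by exact_mod_cast h7
    rw [pow_succ]
    have h10 : ((univ.filter (fun x => ∀ w ∈ insert v R, w ∉ B x)).card : ℝ) ≤
        (1 - β) * U.card := by linarith
    refine h10.trans ?_
    calc (1 - β) * (U.card : ℝ) ≤ (1 - β) * ((1 - β) ^ r * n) := by
          apply mul_le_mul_of_nonneg_left hcard
          linarith
      _ = _ := by ring

/-- Stars at the vertices of `R`. -/
def stars {n : ℕ} (R : Finset (Fin n)) : SimpleGraph (Fin n) where
  Adj u v := u ≠ v ∧ (u ∈ R ∨ v ∈ R)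
  symm := ⟨fun _ _ h => ⟨h.1.symm, h.2.symm⟩⟩
  loopless := ⟨fun _ h => h.1 rfl⟩

theorem stars_edges {n : ℕ} (R : Finset (Fin n)) : (stars R).edgeSet.ncard ≤ R.card * n := by
  have h1 : (stars R).edgeSet ⊆ (((R ×ˢ (univ : Finset (Fin n))).image (fun p => s(p.1, p.2)) :
      Finset (Sym2 (Fin n))) : Set (Sym2 (Fin n))) := by
    intro e
    induction e using Sym2.ind with
    | h u v =>
      intro he
      rw [SimpleGraph.mem_edgeSet] at he
      rw [Finset.mem_coe, Finset.mem_image]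
      rcases he with ⟨-, he | he⟩
      · exact ⟨(u, v), Finset.mem_product.2 ⟨he, Finset.mem_univ _⟩, rfl⟩
      · exact ⟨(v, u), Finset.mem_product.2 ⟨he, Finset.mem_univ _⟩, Sym2.eq_swap⟩
  refine (Set.ncard_le_ncard h1 (Finset.finite_toSet _)).trans ?_
  rw [Set.ncard_coe_finset]
  refine Finset.card_image_le.trans ?_
  rw [Finset.card_product, Finset.card_univ, Fintype.card_fin]

theorem stars_conn {n : ℕ} (R : Finset (Fin n)) (N : Set (Fin n)) (a : Fin n) (ha : a ∈ N)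
    (haR : a ∈ R) : ((stars R).induce N).Preconnected := by
  have h4 : ∀ u : N, ((stars R).induce N).Reachable ⟨a, ha⟩ u := by
    intro u
    by_cases h : a = u
    · have : u = ⟨a, ha⟩ := Subtype.ext h.symm
      rw [this]
    · apply Adj.reachable
      show (stars R).Adj a u
      exact ⟨h, Or.inl haR⟩
  intro u v
  exact (h4 u).symm.trans (h4 v)

/-- For the radius `m` there are supports of the balls with `O(n log n)` edges. -/
theorem ball_top (m : ℕ) (hm : 1 ≤ m) (c : ℝ) (hc : 0 < c) :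
    ∃ (K : ℝ) (n₀ : ℕ), ∀ n : ℕ, n₀ ≤ n → ∀ G : SimpleGraph (Fin n),
      ((2 * m : ℕ) : ℕ∞) < G.egirth →
      (∀ u, c * (n : ℝ) ^ (1 / (m : ℝ)) ≤ (G.neighborSet u).ncard) →
      ∃ H : SimpleGraph (Fin n), (H.edgeSet.ncard : ℝ) ≤ K * n * Real.log n ∧
        ∀ x, (H.induce {y | G.edist x y ≤ m}).Preconnected := by
  obtain ⟨n₀, hn₀⟩ := Filter.eventually_atTop.1
    ((y_tendsto m hm).eventually_ge_atTop (2 / c))
  have hmR : (0 : ℝ) < m := by exact_mod_cast hm
  set β : ℝ := (c / 2) ^ m with hβ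
  have hβ0 : 0 < β := by positivity
  refine ⟨1 / β + 1, max n₀ 3, ?_⟩
  intro n hn G hg hdeg
  have hn3 : 3 ≤ n := le_trans (le_max_right _ _) hn
  have hnR : (3 : ℝ) ≤ n := by exact_mod_cast hn3
  have hn0 : (0 : ℝ) < n := by linarith
  have hy := hn₀ n (le_trans (le_max_left _ _) hn)
  set y : ℝ := (n : ℝ) ^ (1 / (m : ℝ)) with hydef
  have hy0 : 0 < y := by positivity
  have hym : y ^ m = n := by
    rw [hydef, ← Real.rpow_natCast, ← Real.rpow_mul hn0.le, one_div, inv_mul_cancel₀ hmR.ne',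
      Real.rpow_one]
  let B : Fin n → Finset (Fin n) := fun x => univ.filter (fun y => G.edist x y ≤ m)
  have hBcard : ∀ x, (B x).card = {z | G.edist x z ≤ m}.ncard := by
    intro x
    rw [← Set.ncard_coe_finset]
    congr 1
    ext z
    simp [B]
  have hB : ∀ x, β * n ≤ (B x).card := by
    intro x
    rw [hBcard]
    have h1 := ball_lower hg c y hc hy hy0 hdeg x m le_rfl
    rwa [mul_pow, hym] at h1
  have hβ1 : β ≤ 1 := by
    have h1 := hB ⟨0, by omega⟩
    have h2 : (((B ⟨0, by omega⟩).card : ℕ) : ℝ) ≤ n := by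
      have := Finset.card_le_univ (B ⟨0, by omega⟩)
      rw [Fintype.card_fin] at this
      exact_mod_cast this
    have h3 : β * n ≤ 1 * n := by linarith
    exact le_of_mul_le_mul_right h3 hn0
  have hlog : 1 ≤ Real.log n := by
    rw [Real.le_log_iff_exp_le hn0]
    have := Real.exp_one_lt_d9
    linarith
  obtain ⟨R, hR, hcard⟩ := exists_hitting B β hβ1 hB (⌊Real.log n / β⌋₊ + 1)
  have hr : Real.log n / β < ((⌊Real.log n / β⌋₊ + 1 : ℕ) : ℝ) := by
    push_cast
    exact Nat.lt_floor_add_one _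
  have hsmall : (1 - β) ^ (⌊Real.log n / β⌋₊ + 1) * (n : ℝ) < 1 := by
    have h1 : (1 - β) ^ (⌊Real.log n / β⌋₊ + 1) ≤
        Real.exp (-β * ((⌊Real.log n / β⌋₊ + 1 : ℕ) : ℝ)) := by
      have h2 : 1 - β ≤ Real.exp (-β) := by
        have := Real.add_one_le_exp (-β)
        linarith
      calc (1 - β) ^ (⌊Real.log n / β⌋₊ + 1) ≤ Real.exp (-β) ^ (⌊Real.log n / β⌋₊ + 1) :=
            pow_le_pow_left₀ (by linarith) h2 _
        _ = _ := by
            rw [← Real.exp_nat_mul]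
            congr 1
            ring
    have h3 : Real.exp (-β * ((⌊Real.log n / β⌋₊ + 1 : ℕ) : ℝ)) < Real.exp (-Real.log n) := by
      apply Real.exp_lt_exp.2
      rw [div_lt_iff₀ hβ0] at hr
      linarith
    rw [Real.exp_neg, Real.exp_log hn0] at h3
    calc (1 - β) ^ (⌊Real.log n / β⌋₊ + 1) * (n : ℝ) < (n : ℝ)⁻¹ * n := by
          apply mul_lt_mul_of_pos_right (lt_of_le_of_lt h1 h3) hn0
      _ = 1 := inv_mul_cancel₀ hn0.ne'
  have hzero : (univ.filter (fun x => ∀ v ∈ R, v ∉ B x)).card = 0 := by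
    have h1 : (((univ.filter (fun x => ∀ v ∈ R, v ∉ B x)).card : ℕ) : ℝ) < 1 :=
      lt_of_le_of_lt hcard hsmall
    have h2 : (univ.filter (fun x => ∀ v ∈ R, v ∉ B x)).card < 1 := by exact_mod_cast h1
    omega
  refine ⟨stars R, ?_, ?_⟩
  · have h1 : ((stars R).edgeSet.ncard : ℝ) ≤ (R.card : ℝ) * n := by
      exact_mod_cast stars_edges R
    have h2 : (R.card : ℝ) ≤ Real.log n / β + 1 := by
      have h3 : (R.card : ℝ) ≤ ((⌊Real.log n / β⌋₊ + 1 : ℕ) : ℝ) := by exact_mod_cast hR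
      push_cast at h3
      have h4 : (⌊Real.log n / β⌋₊ : ℝ) ≤ Real.log n / β := Nat.floor_le (by positivity)
      linarith
    calc ((stars R).edgeSet.ncard : ℝ) ≤ (R.card : ℝ) * n := h1
      _ ≤ (Real.log n / β + 1) * n := by gcongr
      _ ≤ (Real.log n / β + Real.log n) * n := by gcongr
      _ = (1 / β + 1) * n * Real.log n := by ring
  · intro x
    rw [Finset.card_eq_zero, Finset.filter_eq_empty_iff] at hzero
    have h1 := hzero (Finset.mem_univ x)
    push Not at h1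
    obtain ⟨v, hv, hvB⟩ := h1
    exact stars_conn R _ v (Finset.mem_filter.1 hvB).2 hv

end Pool.Agent.Run7.h515.SU
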