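import Pool.Agent.Run7.h515.SU.Even

/-!
# Supports with few edges, and the order of magnitude
-/

set_option autoImplicit false

namespace Pool.Agent.Run7.h515.SU

open SimpleGraph Finset
open scoped Classical

/-- Every graph `G` has a support with at most `2 e(G)` edges. -/
theorem exists_support {V : Type*} [Fintype V] (G : SimpleGraph V) :
    ∃ H : SimpleGraph V, (∀ x, (H.induce (G.neighborSet x)).Preconnected) ∧
      H.edgeSet.ncard ≤ 2 * G.edgeSet.ncard := by
  have hr : ∀ x : V, ∃ r : V, ∀ y, G.Adj x y → G.Adj x r := by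
    intro x
    by_cases h : ∃ y, G.Adj x y
    · obtain ⟨y, hy⟩ := h
      exact ⟨y, fun _ _ => hy⟩
    · exact ⟨x, fun y hy => absurd ⟨y, hy⟩ h⟩
  choose r hr using hr
  let H : SimpleGraph V := SimpleGraph.fromEdgeSet
    (((univ.filter (fun p : V × V => G.Adj p.1 p.2)).image (fun p => s(r p.1, p.2)) :
      Finset (Sym2 V)) : Set (Sym2 V))
  refine ⟨H, ?_, ?_⟩
  · intro x
    have hroot : ∀ (hrx : G.Adj x (r x)) (u : G.neighborSet x),
        (H.induce (G.neighborSet x)).Reachable ⟨r x, hrx⟩ u := by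
      intro hrx u
      by_cases h : r x = u
      · have : u = ⟨r x, hrx⟩ := Subtype.ext h.symm
        rw [this]
      · apply Adj.reachable
        show H.Adj (r x) u
        rw [SimpleGraph.fromEdgeSet_adj]
        refine ⟨?_, h⟩
        rw [Finset.mem_coe, Finset.mem_image]
        exact ⟨(x, u), Finset.mem_filter.2 ⟨Finset.mem_univ _, u.2⟩, rfl⟩
    intro u v
    have hrx : G.Adj x (r x) := hr x u u.2
    exact (hroot hrx u).symm.trans (hroot hrx v)
  · have h1 : H.edgeSet ⊆ (((univ.filter (fun p : V × V => G.Adj p.1 p.2)).image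
        (fun p => s(r p.1, p.2)) : Finset (Sym2 V)) : Set (Sym2 V)) := by
      rw [SimpleGraph.edgeSet_fromEdgeSet]
      exact Set.sdiff_subset
    refine (Set.ncard_le_ncard h1 (Finset.finite_toSet _)).trans ?_
    rw [Set.ncard_coe_finset]
    refine Finset.card_image_le.trans ?_
    rw [← sum_adj G, Finset.card_filter, Fintype.sum_prod_type]
    refine Finset.sum_le_sum fun u _ => ?_
    rw [← Finset.card_filter]

/-- The number of edges of `G` in terms of a support. -/
theorem even_edges {V : Type*} [Fintype V] {G H : SimpleGraph V} {k : ℕ} (hk : 2 ≤ k)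
    (hfree : (cycleGraph (2 * k)).Free G) :
    2 * G.edgeSet.ncard ≤ (4 * k) ^ (k - 2) *
      (∑ x, Nat.card (H.induce (G.neighborSet x)).ConnectedComponent +
        20 * k * H.edgeSet.ncard) := by
  refine le_trans (le_of_eq ?_) (even_main (H := H) hk hfree univ)
  rw [← sum_adj G]
  refine Finset.sum_congr rfl fun u _ => ?_
  rw [← Set.ncard_coe_finset]
  congr 1
  ext y
  simp

/-- A preconnected graph has at most one component. -/
theorem card_component_le {U : Type*} {F : SimpleGraph U} (h : F.Preconnected) :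
    Nat.card F.ConnectedComponent ≤ 1 := by
  have := h.subsingleton_connectedComponent
  exact Finite.card_le_one_iff_subsingleton.2 inferInstance

/-- Graphs of the order in the question need supports with as many edges, up to a constant. -/
theorem even_order (k : ℕ) (hk : 2 ≤ k) (c : ℝ) (hc : 0 < c) :
    ∃ (c' : ℝ) (n₀ : ℕ), 0 < c' ∧ ∀ n : ℕ, n₀ ≤ n → ∀ G H : SimpleGraph (Fin n),
      (cycleGraph (2 * k)).Free G → (∀ x, (H.induce (G.neighborSet x)).Preconnected) →
      c * (n : ℝ) ^ (1 + 1 / (k : ℝ)) ≤ G.edgeSet.ncard →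
      c' * (n : ℝ) ^ (1 + 1 / (k : ℝ)) ≤ H.edgeSet.ncard := by
  set M : ℝ := (4 * (k : ℝ)) ^ (k - 2) with hM
  have hkR : (2 : ℝ) ≤ k := by exact_mod_cast hk
  have hMpos : 0 < M := by positivity
  have hk0 : (0 : ℝ) < k := by linarith
  -- n ≤ (c / M) n^(1+1/k) for large n
  have htend : Filter.Tendsto (fun n : ℕ => (n : ℝ) ^ (1 / (k : ℝ))) Filter.atTop Filter.atTop :=
    (tendsto_rpow_atTop (by positivity)).comp tendsto_natCast_atTop_atTop
  obtain ⟨n₀, hn₀⟩ := Filter.eventually_atTop.1 (htend.eventually_ge_atTop (M / c))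
  refine ⟨c / (20 * k * M), max n₀ 1, by positivity, ?_⟩
  intro n hn G H hfree hconn hE
  have hn1 : 1 ≤ n := le_trans (le_max_right _ _) hn
  have hnR : (0 : ℝ) < n := by exact_mod_cast hn1
  have h1 := even_edges (H := H) hk hfree
  have h2 : ∑ x, Nat.card (H.induce (G.neighborSet x)).ConnectedComponent ≤ n := by
    refine (Finset.sum_le_sum fun x _ => card_component_le (hconn x)).trans ?_
    simp
  have h3 : (2 : ℝ) * G.edgeSet.ncard ≤ M * (n + 20 * k * H.edgeSet.ncard) := by
    have h4 : 2 * G.edgeSet.ncard ≤ (4 * k) ^ (k - 2) * (n + 20 * k * H.edgeSet.ncard) :=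
      h1.trans (Nat.mul_le_mul_left _ (add_le_add_left h2 _))
    have h5 : ((2 * G.edgeSet.ncard : ℕ) : ℝ) ≤
        (((4 * k) ^ (k - 2) * (n + 20 * k * H.edgeSet.ncard) : ℕ) : ℝ) := by exact_mod_cast h4
    push_cast at h5
    exact h5
  set P : ℝ := (n : ℝ) ^ (1 + 1 / (k : ℝ)) with hP
  have h6 : P = n * (n : ℝ) ^ (1 / (k : ℝ)) := by
    rw [hP, Real.rpow_add hnR, Real.rpow_one]
  have h7 : M / c ≤ (n : ℝ) ^ (1 / (k : ℝ)) := hn₀ n (le_trans (le_max_left _ _) hn)
  have h8 : M * n ≤ c * P := by
    rw [h6]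
    have : M ≤ c * (n : ℝ) ^ (1 / (k : ℝ)) := by
      rw [div_le_iff₀ hc] at h7
      linarith
    nlinarith
  rw [div_mul_eq_mul_div, div_le_iff₀ (by positivity)]
  nlinarith

/-- The first vertices of the maximal blocks of consecutive neighbours of `x`. -/
def blockStarts {n : ℕ} (G : SimpleGraph (Fin n)) (x : Fin n) : Set (Fin n) :=
  {y | G.Adj x y ∧ ∀ y' : Fin n, (y' : ℕ) + 1 = y → ¬ G.Adj x y'}

theorem card_component_path {n : ℕ} (G : SimpleGraph (Fin n)) (x : Fin n) :
    Nat.card ((pathGraph n).induce (G.neighborSet x)).ConnectedComponent ≤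
      (blockStarts G x).ncard := by
  set F := (pathGraph n).induce (G.neighborSet x)
  -- every neighbour is reachable from a block start
  have key : ∀ m : ℕ, ∀ y : G.neighborSet x, ((y : Fin n) : ℕ) = m →
      ∃ s : G.neighborSet x, (s : Fin n) ∈ blockStarts G x ∧ F.Reachable s y := by
    intro m
    induction m with
    | zero =>
      intro y hy
      exact ⟨y, ⟨y.2, fun y' h => by omega⟩, Reachable.refl _⟩
    | succ m ih =>
      intro y hy
      by_cases h : ∃ y' : Fin n, (y' : ℕ) + 1 = (y : Fin n) ∧ G.Adj x y'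
      · obtain ⟨y', h1, h2⟩ := h
        obtain ⟨s, hs, hr⟩ := ih ⟨y', h2⟩ (by show (y' : ℕ) = m; omega)
        refine ⟨s, hs, hr.trans (Adj.reachable ?_)⟩
        show (pathGraph n).Adj y' y
        rw [pathGraph_adj]
        exact Or.inl h1
      · exact ⟨y, ⟨y.2, fun y' h1 h2 => h ⟨y', h1, h2⟩⟩, Reachable.refl _⟩
  have hsurj : Function.Surjective (fun s : blockStarts G x =>
      F.connectedComponentMk ⟨s, s.2.1⟩) := by
    intro c
    induction c using ConnectedComponent.ind with
    | h y =>
      obtain ⟨s, hs, hr⟩ := key _ y rfl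
      exact ⟨⟨s, hs⟩, ConnectedComponent.sound hr⟩
  have := Nat.card_le_card_of_surjective _ hsurj
  rwa [Nat.card_coe_set_eq] at this

theorem path_edges (n : ℕ) : (pathGraph n).edgeSet.ncard ≤ n := by
  have h1 : (pathGraph n).edgeSet ⊆ ((univ.image (fun i : Fin n =>
      s(i, if h : (i : ℕ) + 1 < n then ⟨i + 1, h⟩ else i)) : Finset (Sym2 (Fin n))) :
        Set (Sym2 (Fin n))) := by
    intro e
    induction e using Sym2.ind with
    | h u v =>
      intro he
      rw [SimpleGraph.mem_edgeSet, pathGraph_adj] at he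
      rw [Finset.mem_coe, Finset.mem_image]
      rcases he with he | he
      · refine ⟨u, Finset.mem_univ _, ?_⟩
        rw [dif_pos (by omega)]
        congr 1
        exact Fin.ext he
      · refine ⟨v, Finset.mem_univ _, ?_⟩
        rw [dif_pos (by omega), Sym2.eq_swap]
        congr 1
        exact Fin.ext he
  refine (Set.ncard_le_ncard h1 (Finset.finite_toSet _)).trans ?_
  rw [Set.ncard_coe_finset]
  refine Finset.card_image_le.trans ?_
  simp

/-- In no ordering of the vertices the neighbourhoods consist of few blocks of consecutive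
vertices. -/
theorem even_blocks {n k : ℕ} (hk : 2 ≤ k) (G : SimpleGraph (Fin n))
    (hfree : (cycleGraph (2 * k)).Free G) :
    2 * G.edgeSet.ncard ≤ (4 * k) ^ (k - 2) * (∑ x, (blockStarts G x).ncard + 20 * k * n) := by
  refine (even_edges (H := pathGraph n) hk hfree).trans (Nat.mul_le_mul_left _ ?_)
  exact add_le_add (Finset.sum_le_sum fun x _ => card_component_path G x)
    (Nat.mul_le_mul_left _ (path_edges n))

end Pool.Agent.Run7.h515.SU
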