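import Mathlib

/-!
# Cycles of length 2k: from functions on the natural numbers, and in dense pairs
-/

set_option autoImplicit false

namespace Pool.Agent.Run7.h515.SU

open SimpleGraph Finset
open scoped Classical

variable {V : Type*}

/-- A closed sequence of `m` different vertices gives a copy of the cycle. -/
theorem cycle_of_fun {G : SimpleGraph V} {m : ℕ} (hm : 3 ≤ m) (c : ℕ → V)
    (hinj : ∀ i < m, ∀ j < m, c i = c j → i = j)
    (hadj : ∀ i, i + 1 < m → G.Adj (c i) (c (i + 1))) (hlast : G.Adj (c (m - 1)) (c 0)) :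
    ¬ (cycleGraph m).Free G := by
  intro hfree
  apply hfree
  refine ⟨⟨⟨fun i => c i, ?_⟩, ?_⟩⟩
  · intro u v h
    wlog huv : v ≤ u generalizing u v with H
    · exact (H h.symm (le_of_lt (not_le.1 huv))).symm
    rcases cycleGraph_adj'.1 h with h1 | h1
    · rw [Fin.coe_sub_iff_le.2 huv] at h1
      have h2 : (u : ℕ) = v + 1 := by omega
      show G.Adj (c u) (c v)
      rw [h2]
      exact (hadj v (by omega)).symm
    · have hlt : v < u := lt_of_le_of_ne huv (fun h' => by subst h'; exact h.ne rfl)
      rw [Fin.coe_sub_iff_lt.2 hlt] at h1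
      have h3 := u.2
      have h4 := v.2
      have h5 : (v : ℕ) < u := hlt
      have h6 : (u : ℕ) = m - 1 := by omega
      have h7 : (v : ℕ) = 0 := by omega
      show G.Adj (c u) (c v)
      rw [h6, h7]
      exact hlast
  · intro i j hij
    exact Fin.ext (hinj i i.2 j j.2 hij)

/-- A pair of sets with many edges contains a pair of sets with large minimum degree. -/
theorem dense_core (G : SimpleGraph V) (D : ℕ) : ∀ (n : ℕ) (X Y : Finset V),
    X.card + Y.card = n →
    D * X.card + D * Y.card < ∑ x ∈ X, (Y.filter (fun y => G.Adj x y)).card →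
    ∃ X' ⊆ X, ∃ Y' ⊆ Y, X'.Nonempty ∧ (∀ x ∈ X', D ≤ (Y'.filter (fun y => G.Adj x y)).card) ∧
      ∀ y ∈ Y', D ≤ (X'.filter (fun x => G.Adj y x)).card := by
  intro n
  induction n with
  | zero =>
    intro X Y h0 h
    have : X = ∅ := Finset.card_eq_zero.1 (by omega)
    subst this
    simp at h
  | succ n ih =>
    intro X Y h0 h
    by_cases h1 : ∃ x ∈ X, (Y.filter (fun y => G.Adj x y)).card < D
    · obtain ⟨x, hx, hxD⟩ := h1
      have h2 := Finset.add_sum_erase X (fun x => (Y.filter (fun y => G.Adj x y)).card) hx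
      have h3 := Finset.card_erase_add_one hx
      obtain ⟨X', hX', Y', hY', h4⟩ := ih (X.erase x) Y (by omega) (by
        rw [← h2] at h
        have h5 : D * X.card = D * (X.erase x).card + D := by rw [← h3]; ring
        omega)
      exact ⟨X', hX'.trans (Finset.erase_subset _ _), Y', hY', h4⟩
    by_cases h1' : ∃ y ∈ Y, (X.filter (fun x => G.Adj y x)).card < D
    · obtain ⟨y, hy, hyD⟩ := h1'
      have h3 := Finset.card_erase_add_one hy
      have h2 : ∑ x ∈ X, (Y.filter (fun y => G.Adj x y)).card =
          ∑ x ∈ X, ((Y.erase y).filter (fun y => G.Adj x y)).card +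
            (X.filter (fun x => G.Adj y x)).card := by
        rw [Finset.card_filter, ← Finset.sum_add_distrib]
        refine Finset.sum_congr rfl fun x _ => ?_
        rw [Finset.card_filter, Finset.card_filter, ← Finset.sum_erase_add _ _ hy]
        congr 1
        simp only [G.adj_comm]
      obtain ⟨X', hX', Y', hY', h4⟩ := ih X (Y.erase y) (by omega) (by
        rw [h2] at h
        have h5 : D * Y.card = D * (Y.erase y).card + D := by rw [← h3]; ring
        omega)
      exact ⟨X', hX', Y', hY'.trans (Finset.erase_subset _ _), h4⟩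
    push Not at h1 h1'
    refine ⟨X, Finset.Subset.refl _, Y, Finset.Subset.refl _, ?_, h1, h1'⟩
    rw [Finset.nonempty_iff_ne_empty]
    rintro rfl
    simp at h

/-- A long alternating path in a pair of sets with large minimum degree. -/
theorem exists_path (G : SimpleGraph V) (D : ℕ) (X Y : Finset V) (hX : X.Nonempty)
    (h1 : ∀ x ∈ X, D ≤ (Y.filter (fun y => G.Adj x y)).card)
    (h2 : ∀ y ∈ Y, D ≤ (X.filter (fun x => G.Adj y x)).card) (n : ℕ) (hn : n < D) :
    ∃ g : ℕ → V, (∀ i ≤ n, (i % 2 = 0 → g i ∈ X) ∧ (i % 2 = 1 → g i ∈ Y)) ∧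
      (∀ i ≤ n, ∀ j ≤ n, g i = g j → i = j) ∧ ∀ i < n, G.Adj (g i) (g (i + 1)) := by
  induction n with
  | zero =>
    obtain ⟨x, hx⟩ := hX
    refine ⟨fun _ => x, ?_, ?_, ?_⟩
    · intro i hi
      obtain rfl : i = 0 := by omega
      exact ⟨fun _ => hx, fun h => by omega⟩
    · intro i hi j hj _
      omega
    · intro i hi
      omega
  | succ n ih =>
    obtain ⟨g, hg1, hg2, hg3⟩ := ih (by omega)
    obtain ⟨v, hv1, hv2, hv3, hv4⟩ : ∃ v, G.Adj (g n) v ∧ v ∉ (range (n + 1)).image g ∧
        ((n + 1) % 2 = 0 → v ∈ X) ∧ ((n + 1) % 2 = 1 → v ∈ Y) := by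
      have hc : ((range (n + 1)).image g).card < D :=
        lt_of_le_of_lt Finset.card_image_le (by rw [Finset.card_range]; exact hn)
      rcases Nat.mod_two_eq_zero_or_one n with h0 | h0
      · have h3 := h1 (g n) ((hg1 n le_rfl).1 h0)
        obtain ⟨v, hv, hv'⟩ := Finset.exists_mem_notMem_of_card_lt_card (lt_of_lt_of_le hc h3)
        rw [Finset.mem_filter] at hv
        exact ⟨v, hv.2, hv', fun h => by omega, fun _ => hv.1⟩
      · have h3 := h2 (g n) ((hg1 n le_rfl).2 h0)
        obtain ⟨v, hv, hv'⟩ := Finset.exists_mem_notMem_of_card_lt_card (lt_of_lt_of_le hc h3)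
        rw [Finset.mem_filter] at hv
        exact ⟨v, hv.2, hv', fun _ => hv.1, fun h => by omega⟩
    have hv5 : ∀ i ≤ n, g i ≠ v := fun i hi h =>
      hv2 (Finset.mem_image.2 ⟨i, Finset.mem_range.2 (by omega), h⟩)
    refine ⟨fun i => if i = n + 1 then v else g i, ?_, ?_, ?_⟩
    · intro i hi
      simp only
      split_ifs with h
      · subst h
        exact ⟨hv3, hv4⟩
      · exact hg1 i (by omega)
    · intro i hi j hj h
      simp only at h
      split_ifs at h with h3 h4 h4
      · omega
      · exact absurd h.symm (hv5 j (by omega))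
      · exact absurd h (hv5 i (by omega))
      · exact hg2 i (by omega) j (by omega) h
    · intro i hi
      simp only
      rw [if_neg (by omega)]
      by_cases h3 : i = n
      · subst h3
        rw [if_pos rfl]
        exact hv1
      · rw [if_neg (by omega)]
        exact hg3 i (by omega)

/-- If `z` is adjacent to all vertices of `X`, then a dense pair `X, Y` that does not contain `z`
gives a cycle of length `2k`. -/
theorem cycle_of_dense (G : SimpleGraph V) (k : ℕ) (hk : 2 ≤ k) (z : V) (X Y : Finset V)
    (hX : ∀ x ∈ X, G.Adj z x) (hY : z ∉ Y)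
    (h : 2 * k * X.card + 2 * k * Y.card < ∑ x ∈ X, (Y.filter (fun y => G.Adj x y)).card) :
    ¬ (cycleGraph (2 * k)).Free G := by
  obtain ⟨X', hX', Y', hY', h0, h1, h2⟩ := dense_core G (2 * k) _ X Y rfl h
  obtain ⟨g, hg1, hg2, hg3⟩ := exists_path G (2 * k) X' Y' h0 h1 h2 (2 * k - 2) (by omega)
  have hz : ∀ i ≤ 2 * k - 2, g i ≠ z := by
    intro i hi h3
    rcases Nat.mod_two_eq_zero_or_one i with h4 | h4
    · have := hX _ (hX' ((hg1 i hi).1 h4))
      rw [h3] at this
      exact this.ne rfl
    · have := hY' ((hg1 i hi).2 h4)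
      rw [h3] at this
      exact hY this
  refine cycle_of_fun (m := 2 * k) (by omega) (fun i => if i = 0 then z else g (i - 1)) ?_ ?_ ?_
  · intro i hi j hj hij
    split_ifs at hij with h3 h4 h4
    · omega
    · exact absurd hij.symm (hz _ (by omega))
    · exact absurd hij (hz _ (by omega))
    · have := hg2 _ (by omega) _ (by omega) hij
      omega
  · intro i hi
    rw [if_neg (by omega : ¬ i + 1 = 0)]
    by_cases h3 : i = 0
    · subst h3
      rw [if_pos rfl]
      exact hX _ (hX' ((hg1 0 (by omega)).1 rfl))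
    · rw [if_neg h3]
      have := hg3 (i - 1) (by omega)
      rwa [Nat.sub_add_cancel (by omega : 1 ≤ i)] at this
  · rw [if_neg (by omega : ¬ 2 * k - 1 = 0), if_pos rfl]
    rw [show 2 * k - 1 - 1 = 2 * k - 2 by omega]
    exact (hX _ (hX' ((hg1 (2 * k - 2) le_rfl).1 (by omega)))).symm

/-- Vertices `y_0, …, y_{k-1}` adjacent to `x` such that consecutive ones have at least `2k` common
neighbours give a cycle of length `2k`. -/
theorem cycle_of_chain [Finite V] (G : SimpleGraph V) (k : ℕ) (hk : 2 ≤ k) (x : V) (y : ℕ → V)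
    (hy : ∀ i < k, G.Adj x (y i)) (hinj : ∀ i < k, ∀ j < k, y i = y j → i = j)
    (X : ℕ → Finset V) (hX : ∀ i, i + 1 < k → 2 * k ≤ (X i).card ∧
      ∀ v ∈ X i, G.Adj v (y i) ∧ G.Adj v (y (i + 1))) :
    ¬ (cycleGraph (2 * k)).Free G := by
  -- the new vertices
  have key : ∀ n, n ≤ k - 1 → ∃ w : ℕ → V, (∀ i < n, w i ∈ X i ∧ w i ≠ x ∧ ∀ j < k, w i ≠ y j) ∧
      ∀ i < n, ∀ j < n, w i = w j → i = j := by
    intro n
    induction n with
    | zero => exact fun _ => ⟨fun _ => x, fun i hi => by omega, fun i hi => by omega⟩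
    | succ n ih =>
      intro hn
      obtain ⟨w, hw1, hw2⟩ := ih (by omega)
      obtain ⟨v, hv1, hv2⟩ : ∃ v ∈ X n, v ∉ insert x ((range k).image y ∪ (range n).image w) := by
        apply Finset.exists_mem_notMem_of_card_lt_card
        refine lt_of_lt_of_le ?_ (hX n (by omega)).1
        refine lt_of_le_of_lt (Finset.card_insert_le _ _) ?_
        have h1 := Finset.card_union_le ((range k).image y) ((range n).image w)
        have h2 := Finset.card_image_le (s := range k) (f := y)
        have h3 := Finset.card_image_le (s := range n) (f := w)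
        rw [Finset.card_range] at h2 h3
        omega
      simp only [Finset.mem_insert, Finset.mem_union, Finset.mem_image, Finset.mem_range,
        not_or, not_exists, not_and] at hv2
      obtain ⟨hv2, hv3, hv4⟩ := hv2
      refine ⟨fun i => if i = n then v else w i, ?_, ?_⟩
      · intro i hi
        simp only
        split_ifs with h
        · subst h
          exact ⟨hv1, hv2, fun j hj h' => hv3 j hj h'.symm⟩
        · exact hw1 i (by omega)
      · intro i hi j hj hij
        simp only at hij
        split_ifs at hij with h3 h4 h4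
        · omega
        · exact absurd hij.symm (hv4 j (by omega))
        · exact absurd hij (hv4 i (by omega))
        · exact hw2 i (by omega) j (by omega) hij
  obtain ⟨w, hw1, hw2⟩ := key (k - 1) le_rfl
  refine cycle_of_fun (m := 2 * k) (by omega)
    (fun i => if i = 0 then x else if i % 2 = 1 then y (i / 2) else w (i / 2 - 1)) ?_ ?_ ?_
  · intro i hi j hj hij
    split_ifs at hij with h3 h4 h5 h5 h6 h6
    · omega
    · have := (hy (j / 2) (by omega)).ne
      exact absurd hij this
    · exact absurd hij.symm (hw1 (j / 2 - 1) (by omega)).2.1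
    · have := (hy (i / 2) (by omega)).ne
      exact absurd hij.symm this
    · have := hinj _ (by omega) _ (by omega) hij
      omega
    · exact absurd hij.symm ((hw1 (j / 2 - 1) (by omega)).2.2 _ (by omega))
    · exact absurd hij (hw1 (i / 2 - 1) (by omega)).2.1
    · exact absurd hij ((hw1 (i / 2 - 1) (by omega)).2.2 _ (by omega))
    · have := hw2 _ (by omega) _ (by omega) hij
      omega
  · intro i hi
    rw [if_neg (by omega : ¬ i + 1 = 0)]
    by_cases h3 : i = 0
    · subst h3
      rw [if_pos rfl, if_pos (by omega)]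
      exact hy 0 (by omega)
    · rw [if_neg h3]
      rcases Nat.mod_two_eq_zero_or_one i with h4 | h4
      · rw [if_neg (by omega), if_pos (by omega)]
        have h5 := (hX (i / 2 - 1) (by omega)).2 _ (hw1 (i / 2 - 1) (by omega)).1
        have h6 : i / 2 - 1 + 1 = (i + 1) / 2 := by omega
        rw [h6] at h5
        exact h5.2
      · rw [if_pos h4, if_neg (by omega)]
        have h5 := (hX (i / 2) (by omega)).2 _ (hw1 (i / 2) (by omega)).1
        have h6 : (i + 1) / 2 - 1 = i / 2 := by omega
        rw [h6]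
        exact h5.1.symm
  · rw [if_neg (by omega : ¬ 2 * k - 1 = 0), if_pos (by omega), if_pos rfl]
    exact (hy ((2 * k - 1) / 2) (by omega)).symm

end Pool.Agent.Run7.h515.SU
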