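import Pool.Agent.Run7.h515.SU.Cycle

/-!
# Graphs without a cycle of length 2k and supports of the neighbourhoods

`G` has no cycle of length `2k`, `H` is any graph with the same vertices. Then the number of edges of
`G` is at most a constant times the number of edges of `H` plus the total number of the components of
the graphs induced by `H` on the neighbourhoods of `G`.
-/

set_option autoImplicit false

namespace Pool.Agent.Run7.h515.SU

open SimpleGraph Finset
open scoped Classical

variable {V : Type*}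

/-! ### Components of graphs with bounded degree and without long paths -/

theorem ball_card [Fintype V] (R : SimpleGraph V) (K : ℕ)
    (hdeg : ∀ u, (univ.filter (fun v => R.Adj u v)).card < K) (v : V) (m : ℕ) :
    (univ.filter (fun u => ∃ p : R.Walk u v, p.length ≤ m)).card ≤ K ^ m := by
  induction m with
  | zero =>
    rw [pow_zero]
    refine le_trans (Finset.card_le_card (t := {v}) ?_) (by simp)
    intro u hu
    rw [Finset.mem_filter] at hu
    obtain ⟨-, p, hp⟩ := hu
    cases p with
    | nil => simp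
    | cons h q => simp at hp
  | succ m ih =>
    have hsub : univ.filter (fun u => ∃ p : R.Walk u v, p.length ≤ m + 1) ⊆
        (univ.filter (fun u => ∃ p : R.Walk u v, p.length ≤ m)).biUnion
          (fun u => insert u (univ.filter (fun w => R.Adj u w))) := by
      intro u hu
      rw [Finset.mem_filter] at hu
      obtain ⟨-, p, hp⟩ := hu
      rw [Finset.mem_biUnion]
      cases p with
      | nil =>
        exact ⟨v, Finset.mem_filter.2 ⟨Finset.mem_univ _, ⟨Walk.nil, by simp⟩⟩,
          Finset.mem_insert_self _ _⟩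
      | @cons _ w _ h q =>
        rw [Walk.length_cons] at hp
        exact ⟨w, Finset.mem_filter.2 ⟨Finset.mem_univ _, ⟨q, by omega⟩⟩,
          Finset.mem_insert_of_mem (Finset.mem_filter.2 ⟨Finset.mem_univ _, h.symm⟩)⟩
    refine (Finset.card_le_card hsub).trans ?_
    refine (Finset.card_biUnion_le_card_mul _ _ K fun u _ => ?_).trans ?_
    · exact (Finset.card_insert_le _ _).trans (hdeg u)
    · rw [pow_succ]
      exact Nat.mul_le_mul_right _ ih

theorem reach_card [Fintype V] (R : SimpleGraph V) (K m : ℕ)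
    (hdeg : ∀ u, (univ.filter (fun v => R.Adj u v)).card < K)
    (hpath : ∀ (u v : V) (p : R.Walk u v), p.IsPath → p.length ≤ m) (v : V) :
    (univ.filter (fun u => R.Reachable u v)).card ≤ K ^ m := by
  refine le_trans (Finset.card_le_card ?_) (ball_card R K hdeg v m)
  intro u hu
  rw [Finset.mem_filter] at hu ⊢
  obtain ⟨-, ⟨p⟩⟩ := hu
  exact ⟨Finset.mem_univ _, ⟨(p.toPath : R.Walk u v), hpath _ _ _ p.toPath.2⟩⟩

/-! ### Good and bad pairs -/

variable [Fintype V]

/-- The common neighbours of `u` and `v` in `A`. -/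
noncomputable def W (G : SimpleGraph V) (A : Finset V) (u v : V) : Finset V :=
  A.filter (fun x => G.Adj x u ∧ G.Adj x v)

/-- The neighbours of `z` in `H` that are neighbours of `x` in `G`. -/
noncomputable def NH (G H : SimpleGraph V) (x z : V) : Finset V :=
  univ.filter (fun y => G.Adj x y ∧ H.Adj z y)

omit [Fintype V] in
theorem W_comm (G : SimpleGraph V) (A : Finset V) (u v : V) : W G A u v = W G A v u := by
  unfold W
  congr 1
  funext x
  exact propext and_comm

/-- The good edges of `H` in the neighbourhood of `x`. -/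
def Good (G H : SimpleGraph V) (A : Finset V) (k : ℕ) (x : V) : SimpleGraph V where
  Adj u v := (G.Adj x u ∧ G.Adj x v ∧ H.Adj u v) ∧ 2 * k ≤ (W G A u v).card ∧
    (NH G H x u).card < 4 * k ∧ (NH G H x v).card < 4 * k
  symm := ⟨fun u v h => ⟨⟨h.1.2.1, h.1.1, h.1.2.2.symm⟩, by rw [W_comm]; exact h.2.1,
    h.2.2.2, h.2.2.1⟩⟩
  loopless := ⟨fun u h => h.1.2.2.ne rfl⟩

/-- The bad pairs of vertices in the neighbourhood of `x`. -/
noncomputable def Bad (G H : SimpleGraph V) (A : Finset V) (k : ℕ) (x : V) : Finset (V × V) :=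
  univ.filter (fun p => (G.Adj x p.1 ∧ G.Adj x p.2 ∧ H.Adj p.1 p.2) ∧
    ((W G A p.1 p.2).card < 2 * k ∨ 4 * k ≤ (NH G H x p.1).card ∨ 4 * k ≤ (NH G H x p.2).card))

theorem good_path {G H : SimpleGraph V} {A : Finset V} {k : ℕ} (hk : 2 ≤ k)
    (hfree : (cycleGraph (2 * k)).Free G) (x u v : V) (p : (Good G H A k x).Walk u v)
    (hp : p.IsPath) : p.length ≤ k - 2 := by
  by_contra hlen
  push Not at hlen
  have hadj : ∀ i < k - 1, (Good G H A k x).Adj (p.getVert i) (p.getVert (i + 1)) :=
    fun i hi => p.adj_getVert_succ (by omega)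
  refine cycle_of_chain G k hk x (fun i => p.getVert i) ?_ ?_
    (fun i => W G A (p.getVert i) (p.getVert (i + 1))) ?_ hfree
  · intro i hi
    by_cases h : i < k - 1
    · exact (hadj i h).1.1
    · have h1 := (hadj (k - 2) (by omega)).1.2.1
      have h2 : k - 2 + 1 = i := by omega
      rwa [h2] at h1
  · intro i hi j hj hij
    exact hp.getVert_injOn (by show i ≤ p.length; omega) (by show j ≤ p.length; omega) hij
  · intro i hi
    refine ⟨(hadj i (by omega)).2.1, fun w hw => ?_⟩
    unfold W at hw
    rw [Finset.mem_filter] at hw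
    exact hw.2

theorem good_reach {G H : SimpleGraph V} {A : Finset V} {k : ℕ} (hk : 2 ≤ k)
    (hfree : (cycleGraph (2 * k)).Free G) (x v : V) :
    (univ.filter (fun u => (Good G H A k x).Reachable u v)).card ≤ (4 * k) ^ (k - 2) := by
  refine reach_card _ (4 * k) (k - 2) (fun u => ?_) (fun u v p hp => good_path hk hfree x u v p hp) v
  by_cases h : ∃ w, (Good G H A k x).Adj u w
  · obtain ⟨w, hw⟩ := h
    refine lt_of_le_of_lt (Finset.card_le_card ?_) hw.2.2.1
    intro y hy
    rw [Finset.mem_filter] at hy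
    unfold NH
    rw [Finset.mem_filter]
    exact ⟨Finset.mem_univ _, hy.2.1.2.1, hy.2.1.2.2⟩
  · rw [Finset.filter_eq_empty_iff.2]
    · simp
      omega
    · intro y _ hy
      exact h ⟨y, hy⟩

/-- The neighbourhood of `x` is covered by a small number of small sets. -/
theorem nbhd_le {G H : SimpleGraph V} {A : Finset V} {k : ℕ} (hk : 2 ≤ k)
    (hfree : (cycleGraph (2 * k)).Free G) (x : V) :
    (univ.filter (fun y => G.Adj x y)).card ≤
      (4 * k) ^ (k - 2) * (Nat.card (H.induce (G.neighborSet x)).ConnectedComponent +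
        (Bad G H A k x).card) := by
  set C := (H.induce (G.neighborSet x)).ConnectedComponent
  have : Finite C := Quot.finite _
  let _ : Fintype C := Fintype.ofFinite C
  let rep : C → V := fun c => (Quot.out c : G.neighborSet x)
  set S : Finset V := univ.image rep ∪ (Bad G H A k x).image Prod.snd with hS
  have hScard : S.card ≤ Nat.card C + (Bad G H A k x).card := by
    refine (Finset.card_union_le _ _).trans (add_le_add ?_ Finset.card_image_le)
    refine Finset.card_image_le.trans ?_
    rw [Finset.card_univ, Nat.card_eq_fintype_card]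
  have hcover : univ.filter (fun y => G.Adj x y) ⊆
      S.biUnion (fun s => univ.filter (fun u => (Good G H A k x).Reachable u s)) := by
    intro y hy
    rw [Finset.mem_filter] at hy
    -- walk induction
    have key : ∀ (a b : G.neighborSet x) (p : (H.induce (G.neighborSet x)).Walk a b),
        (∃ s ∈ S, (Good G H A k x).Reachable a s) → ∃ s ∈ S, (Good G H A k x).Reachable b s := by
      intro a b p
      induction p with
      | nil => exact id
      | @cons a c b hac q ih =>
        rintro ⟨s, hs, hsr⟩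
        apply ih
        have h1 : H.Adj (a : V) c := hac
        by_cases hg : (Good G H A k x).Adj a c
        · exact ⟨s, hs, hg.symm.reachable.trans hsr⟩
        · refine ⟨c, ?_, Reachable.refl _⟩
          rw [hS, Finset.mem_union]
          right
          rw [Finset.mem_image]
          refine ⟨(a, c), ?_, rfl⟩
          unfold Bad
          rw [Finset.mem_filter]
          have h2 : G.Adj x a ∧ G.Adj x c ∧ H.Adj a c := ⟨a.2, c.2, h1⟩
          refine ⟨Finset.mem_univ _, h2, ?_⟩
          by_contra hbad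
          push Not at hbad
          exact hg ⟨h2, hbad⟩
    let c : C := (H.induce (G.neighborSet x)).connectedComponentMk ⟨y, hy.2⟩
    have hc : (H.induce (G.neighborSet x)).connectedComponentMk (Quot.out c) = c := Quot.out_eq c
    obtain ⟨p⟩ := ConnectedComponent.exact hc
    obtain ⟨s, hs, hr⟩ := key _ _ p ⟨rep c, by
      rw [hS, Finset.mem_union]
      exact Or.inl (Finset.mem_image.2 ⟨c, Finset.mem_univ _, rfl⟩), Reachable.refl _⟩
    rw [Finset.mem_biUnion]
    exact ⟨s, hs, Finset.mem_filter.2 ⟨Finset.mem_univ _, hr⟩⟩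
  refine (Finset.card_le_card hcover).trans ?_
  refine (Finset.card_biUnion_le_card_mul _ _ ((4 * k) ^ (k - 2))
    (fun s _ => good_reach hk hfree x s)).trans ?_
  rw [mul_comm]
  exact Nat.mul_le_mul_left _ hScard

/-! ### Counting the bad pairs -/

theorem sum_adj (H : SimpleGraph V) :
    ∑ u : V, (univ.filter (fun v => H.Adj u v)).card = 2 * H.edgeSet.ncard := by
  have h := H.sum_degrees_eq_twice_card_edges
  rw [show H.edgeSet.ncard = H.edgeFinset.card by
    rw [← SimpleGraph.coe_edgeFinset, Set.ncard_coe_finset]]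
  rw [← h]
  refine Finset.sum_congr rfl fun u _ => ?_
  rw [← SimpleGraph.card_neighborFinset_eq_degree, SimpleGraph.neighborFinset_eq_filter]

theorem light_le (G H : SimpleGraph V) (A : Finset V) (k : ℕ) :
    ∑ x ∈ A, (univ.filter (fun p : V × V => (G.Adj x p.1 ∧ G.Adj x p.2 ∧ H.Adj p.1 p.2) ∧
      (W G A p.1 p.2).card < 2 * k)).card ≤ 4 * k * H.edgeSet.ncard := by
  have h1 : ∀ x ∈ A, (univ.filter (fun p : V × V => (G.Adj x p.1 ∧ G.Adj x p.2 ∧ H.Adj p.1 p.2) ∧
      (W G A p.1 p.2).card < 2 * k)).card = ∑ p : V × V,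
        (if (G.Adj x p.1 ∧ G.Adj x p.2 ∧ H.Adj p.1 p.2) ∧ (W G A p.1 p.2).card < 2 * k
          then 1 else 0) := fun x _ => Finset.card_filter _ _
  rw [Finset.sum_congr rfl h1, Finset.sum_comm]
  have h2 : ∀ p : V × V, (∑ x ∈ A,
      (if (G.Adj x p.1 ∧ G.Adj x p.2 ∧ H.Adj p.1 p.2) ∧ (W G A p.1 p.2).card < 2 * k
          then 1 else 0)) ≤ if H.Adj p.1 p.2 then 2 * k else 0 := by
    intro p
    rw [← Finset.card_filter]
    split_ifs with h
    · by_cases h3 : (W G A p.1 p.2).card < 2 * k
      · refine le_trans (Finset.card_le_card ?_) h3.le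
        intro x hx
        rw [Finset.mem_filter] at hx
        exact Finset.mem_filter.2 ⟨hx.1, hx.2.1.1, hx.2.1.2.1⟩
      · rw [Finset.filter_eq_empty_iff.2]
        · simp
        · intro x _ hx
          exact h3 hx.2
    · rw [Finset.filter_eq_empty_iff.2]
      · simp
      · intro x _ hx
        exact h hx.1.2.2
  refine (Finset.sum_le_sum fun p _ => h2 p).trans ?_
  rw [Fintype.sum_prod_type]
  have h3 : ∀ u : V, (∑ v : V, if H.Adj u v then 2 * k else 0) =
      2 * k * (univ.filter (fun v => H.Adj u v)).card := by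
    intro u
    rw [← Finset.sum_filter, Finset.sum_const, smul_eq_mul, mul_comm]
  simp only [h3]
  rw [← Finset.mul_sum, sum_adj]
  apply le_of_eq
  ring

theorem heavy_le {G H : SimpleGraph V} {A : Finset V} {k : ℕ} (hk : 2 ≤ k)
    (hfree : (cycleGraph (2 * k)).Free G) :
    ∑ x ∈ A, (univ.filter (fun p : V × V => (G.Adj x p.1 ∧ G.Adj x p.2 ∧ H.Adj p.1 p.2) ∧
      4 * k ≤ (NH G H x p.1).card)).card ≤ 8 * k * H.edgeSet.ncard := by
  have h1 : ∀ x ∈ A, (univ.filter (fun p : V × V => (G.Adj x p.1 ∧ G.Adj x p.2 ∧ H.Adj p.1 p.2) ∧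
      4 * k ≤ (NH G H x p.1).card)).card = ∑ u : V,
        (if G.Adj x u ∧ 4 * k ≤ (NH G H x u).card then (NH G H x u).card else 0) := by
    intro x _
    rw [Finset.card_filter, Fintype.sum_prod_type]
    refine Finset.sum_congr rfl fun u _ => ?_
    rw [← Finset.card_filter]
    split_ifs with h
    · congr 1
      unfold NH
      ext y
      simp only [Finset.mem_filter, Finset.mem_univ, true_and]
      constructor
      · rintro ⟨h2, -⟩
        exact ⟨h2.2.1, h2.2.2⟩
      · rintro ⟨h2, h3⟩
        exact ⟨⟨h.1, h2, h3⟩, h.2⟩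
    · rw [Finset.card_eq_zero, Finset.filter_eq_empty_iff]
      intro y _ hy
      exact h ⟨hy.1.1, hy.2⟩
  rw [Finset.sum_congr rfl h1, Finset.sum_comm]
  have h2 : ∀ u : V, (∑ x ∈ A,
      (if G.Adj x u ∧ 4 * k ≤ (NH G H x u).card then (NH G H x u).card else 0)) ≤
        4 * k * (univ.filter (fun v => H.Adj u v)).card := by
    intro u
    rw [← Finset.sum_filter]
    by_contra hlt
    push Not at hlt
    set X := A.filter (fun x => G.Adj x u ∧ 4 * k ≤ (NH G H x u).card) with hX
    set Y := univ.filter (fun v => H.Adj u v) with hY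
    have h3 : ∀ x ∈ X, (Y.filter (fun y => G.Adj x y)).card = (NH G H x u).card := by
      intro x _
      congr 1
      unfold NH
      ext y
      rw [hY]
      simp only [Finset.mem_filter, Finset.mem_univ, true_and]
      exact and_comm
    refine cycle_of_dense G k hk u X Y ?_ ?_ ?_ hfree
    · intro x hx
      rw [hX, Finset.mem_filter] at hx
      exact hx.2.1.symm
    · rw [hY, Finset.mem_filter]
      exact fun h => h.2.ne rfl
    · rw [Finset.sum_congr rfl h3]
      have h4 : 4 * k * X.card ≤ ∑ x ∈ X, (NH G H x u).card := by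
        rw [mul_comm, ← smul_eq_mul, ← Finset.sum_const]
        refine Finset.sum_le_sum fun x hx => ?_
        rw [hX, Finset.mem_filter] at hx
        exact hx.2.2
      nlinarith
  refine (Finset.sum_le_sum fun u _ => h2 u).trans ?_
  rw [← Finset.mul_sum, sum_adj]
  apply le_of_eq
  ring

theorem bad_le {G H : SimpleGraph V} {A : Finset V} {k : ℕ} (hk : 2 ≤ k)
    (hfree : (cycleGraph (2 * k)).Free G) :
    ∑ x ∈ A, (Bad G H A k x).card ≤ 20 * k * H.edgeSet.ncard := by
  have h1 := light_le G H A k
  have h2 := heavy_le (H := H) (A := A) hk hfree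
  have h3 : ∀ x ∈ A, (Bad G H A k x).card ≤
      (univ.filter (fun p : V × V => (G.Adj x p.1 ∧ G.Adj x p.2 ∧ H.Adj p.1 p.2) ∧
        (W G A p.1 p.2).card < 2 * k)).card +
      ((univ.filter (fun p : V × V => (G.Adj x p.1 ∧ G.Adj x p.2 ∧ H.Adj p.1 p.2) ∧
        4 * k ≤ (NH G H x p.1).card)).card +
      (univ.filter (fun p : V × V => (G.Adj x p.1 ∧ G.Adj x p.2 ∧ H.Adj p.1 p.2) ∧
        4 * k ≤ (NH G H x p.1).card)).card) := by
    intro x _
    have h4 : (univ.filter (fun p : V × V => (G.Adj x p.1 ∧ G.Adj x p.2 ∧ H.Adj p.1 p.2) ∧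
        4 * k ≤ (NH G H x p.2).card)).card ≤
      (univ.filter (fun p : V × V => (G.Adj x p.1 ∧ G.Adj x p.2 ∧ H.Adj p.1 p.2) ∧
        4 * k ≤ (NH G H x p.1).card)).card := by
      refine Finset.card_le_card_of_injOn Prod.swap ?_ (Prod.swap_injective.injOn)
      intro p hp
      simp only [Finset.coe_filter, Finset.mem_univ, true_and, Set.mem_ofPred_eq] at hp ⊢
      exact ⟨⟨hp.1.2.1, hp.1.1, hp.1.2.2.symm⟩, hp.2⟩
    refine le_trans (Finset.card_le_card ?_) ((Finset.card_union_le _ _).trans
      (add_le_add_right ((Finset.card_union_le _ _).trans (add_le_add_right h4 _)) _))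
    intro p hp
    unfold Bad at hp
    simp only [Finset.mem_filter, Finset.mem_univ, true_and, Finset.mem_union] at hp ⊢
    rcases hp with ⟨h5, h6 | h6 | h6⟩
    · exact Or.inl ⟨h5, h6⟩
    · exact Or.inr (Or.inl ⟨h5, h6⟩)
    · exact Or.inr (Or.inr ⟨h5, h6⟩)
  refine (Finset.sum_le_sum h3).trans ?_
  rw [Finset.sum_add_distrib, Finset.sum_add_distrib]
  have h4 : 20 * k * H.edgeSet.ncard = 4 * k * H.edgeSet.ncard + (8 * k * H.edgeSet.ncard +
    8 * k * H.edgeSet.ncard) := by ring
  rw [h4]
  exact add_le_add h1 (add_le_add h2 h2)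

/-- The main bound. -/
theorem even_main {G H : SimpleGraph V} {k : ℕ} (hk : 2 ≤ k)
    (hfree : (cycleGraph (2 * k)).Free G) (A : Finset V) :
    ∑ x ∈ A, (G.neighborSet x).ncard ≤ (4 * k) ^ (k - 2) *
      (∑ x ∈ A, Nat.card (H.induce (G.neighborSet x)).ConnectedComponent +
        20 * k * H.edgeSet.ncard) := by
  have h1 : ∀ x ∈ A, (G.neighborSet x).ncard ≤
      (4 * k) ^ (k - 2) * (Nat.card (H.induce (G.neighborSet x)).ConnectedComponent +
        (Bad G H A k x).card) := by
    intro x _
    refine le_trans (le_of_eq ?_) (nbhd_le (H := H) (A := A) hk hfree x)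
    rw [← Set.ncard_coe_finset]
    congr 1
    ext y
    simp
  refine (Finset.sum_le_sum h1).trans ?_
  rw [← Finset.mul_sum, Finset.sum_add_distrib]
  exact Nat.mul_le_mul_left _ (add_le_add_right (bad_le hk hfree) _)

end Pool.Agent.Run7.h515.SU
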