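import Pool.Agent.Run7.h515.SU.Kst

/-!
# Graphs without `K_{s,t}`: the neighbourhoods are almost independent in all sparse graphs
-/

set_option autoImplicit false

namespace Pool.Agent.Run7.h515.SU

open SimpleGraph Finset
open scoped Classical

variable {V : Type*} [Fintype V]

theorem card_mem_sym2 (e : Sym2 V) (he : ¬ e.IsDiag) :
    (univ.filter (fun v => v ∈ e)).card = 2 := by
  induction e using Sym2.ind with
  | h u v =>
    have h1 : univ.filter (fun w => w ∈ s(u, v)) = {u, v} := by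
      ext w
      simp [Sym2.mem_iff]
    rw [h1, Finset.card_pair]
    intro h
    exact he (by rw [h]; exact rfl)

/-- A maximal matching in a set `N`. -/
theorem exists_matching (H : SimpleGraph V) (N : Set V) :
    ∃ F : Finset (Sym2 V), (F : Set (Sym2 V)) ⊆ H.edgeSet ∧
      (∀ T ⊆ F, (cover T : Set V) ⊆ N ∧ (cover T).card = 2 * T.card) ∧
      ∀ u ∈ N, ∀ v ∈ N, u ∉ cover F → v ∉ cover F → ¬ H.Adj u v := by
  let Q : Finset (Sym2 V) → Prop := fun F => (∀ e ∈ F, e ∈ H.edgeSet ∧ ∀ v ∈ e, v ∈ N) ∧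
    ∀ e ∈ F, ∀ e' ∈ F, ∀ v, v ∈ e → v ∈ e' → e = e'
  obtain ⟨F, hF, hmax⟩ := Finset.exists_max_image (univ.filter Q) Finset.card
    ⟨∅, Finset.mem_filter.2 ⟨Finset.mem_univ _, by simp, by simp⟩⟩
  have hQ : Q F := (Finset.mem_filter.1 hF).2
  refine ⟨F, fun e he => (hQ.1 e he).1, ?_, ?_⟩
  · intro T hT
    refine ⟨?_, ?_⟩
    · intro v hv
      unfold cover at hv
      simp only [Finset.coe_filter, Finset.mem_univ, true_and, Set.mem_ofPred_eq] at hv
      obtain ⟨e, he, hve⟩ := hv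
      exact (hQ.1 e (hT he)).2 v hve
    · have h1 : cover T = T.biUnion (fun e => univ.filter (fun v => v ∈ e)) := by
        ext v
        unfold cover
        simp
      rw [h1, Finset.card_biUnion]
      · rw [Finset.sum_congr rfl (fun e he => card_mem_sym2 e
          (H.not_isDiag_of_mem_edgeSet (hQ.1 e (hT he)).1)), Finset.sum_const, smul_eq_mul, mul_comm]
      · intro e he e' he' hne
        rw [Function.onFun, Finset.disjoint_left]
        intro v hv hv'
        exact hne (hQ.2 e (hT he) e' (hT he') v (Finset.mem_filter.1 hv).2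
          (Finset.mem_filter.1 hv').2)
  · intro u hu v hv hu' hv' huv
    have hu2 : ∀ e ∈ F, u ∉ e := fun e he h => hu' (Finset.mem_filter.2 ⟨Finset.mem_univ _, e, he, h⟩)
    have hv2 : ∀ e ∈ F, v ∉ e := fun e he h => hv' (Finset.mem_filter.2 ⟨Finset.mem_univ _, e, he, h⟩)
    have hnot : s(u, v) ∉ F := fun h => hu2 _ h (Sym2.mem_iff.2 (Or.inl rfl))
    have hQ' : Q (insert s(u, v) F) := by
      refine ⟨?_, ?_⟩
      · intro e he
        rcases Finset.mem_insert.1 he with h | h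
        · rw [h]
          refine ⟨huv, fun w hw => ?_⟩
          rcases Sym2.mem_iff.1 hw with h' | h'
          · rw [h']; exact hu
          · rw [h']; exact hv
        · exact hQ.1 e h
      · intro e he e' he' w hw hw'
        rcases Finset.mem_insert.1 he with h | h <;> rcases Finset.mem_insert.1 he' with h' | h'
        · rw [h, h']
        · exfalso
          rw [h] at hw
          rcases Sym2.mem_iff.1 hw with h3 | h3
          · rw [h3] at hw'; exact hu2 _ h' hw'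
          · rw [h3] at hw'; exact hv2 _ h' hw'
        · exfalso
          rw [h'] at hw'
          rcases Sym2.mem_iff.1 hw' with h3 | h3
          · rw [h3] at hw; exact hu2 _ h hw
          · rw [h3] at hw; exact hv2 _ h hw
        · exact hQ.2 e h e' h' w hw hw'
    have h1 := hmax _ (Finset.mem_filter.2 ⟨Finset.mem_univ _, hQ'⟩)
    rw [Finset.card_insert_of_notMem hnot] at h1
    omega

/-- The count for sets of `p` edges. -/
theorem edge_count {G : SimpleGraph V} {s t p : ℕ} (ht : 1 ≤ t)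
    (hfree : (completeBipartiteGraph (Fin s) (Fin t)).Free G) (E : Finset (Sym2 V))
    (A : Finset V) (F : V → Finset (Sym2 V)) (hF : ∀ x, F x ⊆ E)
    (hcov : ∀ x, ∀ T ⊆ F x, T.card = p → (cover T : Set V) ⊆ G.neighborSet x ∧
      s ≤ (cover T).card) :
    ∑ x ∈ A, ((F x).card + 1 - p) ^ p ≤ (t - 1) * E.card ^ p := by
  have h1 : ∀ T ∈ E.powersetCard p,
      (A.filter (fun x => T ⊆ F x)).card ≤ t - 1 := by
    intro T hT
    rw [Finset.mem_powersetCard] at hT
    by_contra hlt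
    push Not at hlt
    have hx : (A.filter (fun x => T ⊆ F x)).Nonempty := Finset.card_pos.1 (by omega)
    obtain ⟨x₀, hx₀⟩ := hx
    have h2 := (hcov x₀ T (Finset.mem_filter.1 hx₀).2 hT.2).2
    refine not_free_of_sets G s t (cover T) (A.filter (fun x => T ⊆ F x)) h2 (by omega)
      ?_ hfree
    intro u hu x hx
    exact ((hcov x T (Finset.mem_filter.1 hx).2 hT.2).1 hu : G.Adj x u).symm
  have h2 : ∑ x ∈ A, (F x).card.choose p ≤ (t - 1) * E.card.choose p := by
    have h3 : ∀ x ∈ A, (F x).card.choose p =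
        ∑ T ∈ E.powersetCard p, if T ⊆ F x then 1 else 0 := by
      intro x _
      rw [← Finset.card_powersetCard, ← Finset.card_filter]
      congr 1
      ext T
      rw [Finset.mem_filter, Finset.mem_powersetCard, Finset.mem_powersetCard]
      exact ⟨fun h => ⟨⟨h.1.trans (hF x), h.2⟩, h.1⟩, fun h => ⟨h.2, h.1.2⟩⟩
    rw [Finset.sum_congr rfl h3, Finset.sum_comm, ← Finset.card_powersetCard, mul_comm,
      ← smul_eq_mul, ← Finset.sum_const]
    refine Finset.sum_le_sum fun T hT => ?_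
    rw [← Finset.card_filter]
    exact h1 T hT
  have h4 : ∀ x ∈ A, ((F x).card + 1 - p) ^ p ≤ p.factorial * (F x).card.choose p := by
    intro x _
    rw [← Nat.descFactorial_eq_factorial_mul_choose]
    exact Nat.pow_sub_le_descFactorial _ _
  refine (Finset.sum_le_sum h4).trans ?_
  rw [← Finset.mul_sum]
  calc p.factorial * ∑ x ∈ A, (F x).card.choose p
      ≤ p.factorial * ((t - 1) * E.card.choose p) := Nat.mul_le_mul_left _ h2
    _ = (t - 1) * E.card.descFactorial p := by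
        rw [Nat.descFactorial_eq_factorial_mul_choose]; ring
    _ ≤ (t - 1) * E.card ^ p := Nat.mul_le_mul_left _ (Nat.descFactorial_le_pow _ _)

/-- The neighbourhoods in a graph without `K_{s,t}` are almost independent in sparse graphs. -/
theorem ind_main {G : SimpleGraph V} (H : SimpleGraph V) {s t p : ℕ} (hp : 1 ≤ p)
    (hs : s ≤ 2 * p) (ht : 1 ≤ t) (hfree : (completeBipartiteGraph (Fin s) (Fin t)).Free G) :
    ∃ I : V → Set V, (∀ x, I x ⊆ G.neighborSet x) ∧ (∀ x, H.IsIndepSet (I x)) ∧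
      ∑ x, ((G.neighborSet x \ I x).ncard : ℝ) ≤
        2 * ((t : ℝ) - 1) ^ (1 / (p : ℝ)) * H.edgeSet.ncard *
          (Fintype.card V : ℝ) ^ (1 - 1 / (p : ℝ)) + 2 * ((p : ℝ) - 1) * Fintype.card V := by
  have hch := fun x => exists_matching H (G.neighborSet x)
  choose F hF1 hF2 hF3 using hch
  have h1 := edge_count (p := p) ht hfree H.edgeFinset univ F
    (fun x => by
      intro e he
      rw [SimpleGraph.mem_edgeFinset]
      exact hF1 x he) (fun x T hT hc => ⟨(hF2 x T hT).1, by rw [(hF2 x T hT).2, hc]; exact hs⟩)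
  have h2 : H.edgeFinset.card = H.edgeSet.ncard := by
    rw [← Set.ncard_coe_finset, SimpleGraph.coe_edgeFinset]
  rw [h2] at h1
  obtain ⟨q, rfl⟩ : ∃ q, p = q + 1 := ⟨p - 1, by omega⟩
  obtain ⟨r, rfl⟩ : ∃ r, t = r + 1 := ⟨t - 1, by omega⟩
  have h4 := pow_sum_le_card_mul_sum_pow (s := (univ : Finset V))
    (f := fun x => ((F x).card + 1 - (q + 1))) (fun x _ => Nat.zero_le _) q
  set Q := ∑ x, ((F x).card + 1 - (q + 1)) with hQ
  have h5 : Q ^ (q + 1) ≤ Fintype.card V ^ q * (r * H.edgeSet.ncard ^ (q + 1)) := by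
    refine h4.trans ?_
    rw [Finset.card_univ]
    refine Nat.mul_le_mul_left _ ?_
    have e3 : r + 1 - 1 = r := by omega
    rw [e3] at h1
    exact h1
  have hpR : (0 : ℝ) < ((q + 1 : ℕ) : ℝ) := by exact_mod_cast (by omega : 0 < q + 1)
  have e5 : (((r + 1 : ℕ) : ℝ) - 1) = (r : ℝ) := by push_cast; ring
  have e6 : (((q + 1 : ℕ) : ℝ) - 1) = (q : ℝ) := by push_cast; ring
  have hroot : (Q : ℝ) ≤ (r : ℝ) ^ (1 / ((q + 1 : ℕ) : ℝ)) * H.edgeSet.ncard *
      (Fintype.card V : ℝ) ^ (1 - 1 / ((q + 1 : ℕ) : ℝ)) := by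
    refine le_of_pow_le_pow_left₀ (n := q + 1) (by omega) (by positivity) ?_
    rw [mul_pow, mul_pow]
    have h1 : ((r : ℝ) ^ (1 / ((q + 1 : ℕ) : ℝ))) ^ (q + 1) = r := by
      rw [← Real.rpow_natCast, ← Real.rpow_mul (Nat.cast_nonneg _), one_div,
        inv_mul_cancel₀ hpR.ne', Real.rpow_one]
    have h2 : ((Fintype.card V : ℝ) ^ (1 - 1 / ((q + 1 : ℕ) : ℝ))) ^ (q + 1) =
        (Fintype.card V : ℝ) ^ q := by
      rw [← Real.rpow_natCast, ← Real.rpow_mul (Nat.cast_nonneg _), ← Real.rpow_natCast _ q]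
      congr 1
      rw [sub_mul, one_div, inv_mul_cancel₀ hpR.ne']
      push_cast
      ring
    rw [h1, h2]
    have h3 : ((Q ^ (q + 1) : ℕ) : ℝ) ≤
        ((Fintype.card V ^ q * (r * H.edgeSet.ncard ^ (q + 1)) : ℕ) : ℝ) := by exact_mod_cast h5
    push_cast at h3
    calc (Q : ℝ) ^ (q + 1) ≤ (Fintype.card V : ℝ) ^ q * (r * (H.edgeSet.ncard : ℝ) ^ (q + 1)) := h3
      _ = _ := by ring
  refine ⟨fun x => G.neighborSet x \ (cover (F x) : Set V), fun x => Set.sdiff_subset, ?_, ?_⟩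
  · intro x u hu v hv _
    exact hF3 x u hu.1 v hv.1 hu.2 hv.2
  · have h6 : ∀ x, (G.neighborSet x \ (G.neighborSet x \ (cover (F x) : Set V))).ncard ≤
        2 * ((F x).card + 1 - (q + 1)) + 2 * q := by
      intro x
      have h7 : G.neighborSet x \ (G.neighborSet x \ (cover (F x) : Set V)) ⊆ cover (F x) := by
        intro v hv
        by_contra h
        exact hv.2 ⟨hv.1, h⟩
      have h8 := Set.ncard_le_ncard h7 (Finset.finite_toSet _)
      rw [Set.ncard_coe_finset, (hF2 x (F x) (Finset.Subset.refl _)).2] at h8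
      omega
    have h9 : ∑ x, (G.neighborSet x \ (G.neighborSet x \ (cover (F x) : Set V))).ncard ≤
        2 * Q + 2 * q * Fintype.card V := by
      refine (Finset.sum_le_sum fun x _ => h6 x).trans ?_
      rw [Finset.sum_add_distrib, ← Finset.mul_sum, Finset.sum_const, Finset.card_univ,
        smul_eq_mul]
      apply le_of_eq
      ring
    have h10 : ∑ x, ((G.neighborSet x \ (G.neighborSet x \ (cover (F x) : Set V))).ncard : ℝ) ≤
        2 * Q + 2 * q * Fintype.card V := by exact_mod_cast h9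
    rw [e5, e6]
    linarith

/-- For even `s` and graphs of the conjectured order. -/
theorem ind_order (p t : ℕ) (hp : 1 ≤ p) (ht : 1 ≤ t) (ε : ℝ) (hε : 0 < ε) :
    ∃ (δ : ℝ) (n₀ : ℕ), 0 < δ ∧ ∀ n : ℕ, n₀ ≤ n → ∀ G H : SimpleGraph (Fin n),
      (completeBipartiteGraph (Fin (2 * p)) (Fin t)).Free G →
      (H.edgeSet.ncard : ℝ) ≤ δ * (n : ℝ) ^ (1 + 1 / (2 * (p : ℝ))) →
      ∃ I : Fin n → Set (Fin n), (∀ x, I x ⊆ G.neighborSet x) ∧ (∀ x, H.IsIndepSet (I x)) ∧
        ∑ x, ((G.neighborSet x \ I x).ncard : ℝ) ≤ ε * (n : ℝ) ^ (2 - 1 / (2 * (p : ℝ))) := by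
  have hpR : (1 : ℝ) ≤ p := by exact_mod_cast hp
  have htR : (1 : ℝ) ≤ t := by exact_mod_cast ht
  set T : ℝ := ((t : ℝ) - 1) ^ (1 / (p : ℝ)) with hT
  have hT0 : 0 ≤ T := Real.rpow_nonneg (by linarith) _
  have hexp : 0 < 1 - 1 / (2 * (p : ℝ)) := by
    rw [sub_pos, div_lt_one (by positivity)]
    linarith
  have htend : Filter.Tendsto (fun n : ℕ => (n : ℝ) ^ (1 - 1 / (2 * (p : ℝ)))) Filter.atTop
      Filter.atTop := (tendsto_rpow_atTop hexp).comp tendsto_natCast_atTop_atTop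
  obtain ⟨n₀, hn₀⟩ := Filter.eventually_atTop.1 (htend.eventually_ge_atTop (4 * p / ε))
  refine ⟨ε / (4 * (T + 1)), max n₀ 1, by positivity, ?_⟩
  intro n hn G H hfree hH
  have hn1 : 1 ≤ n := le_trans (le_max_right _ _) hn
  have hnR : (0 : ℝ) < n := by exact_mod_cast hn1
  obtain ⟨I, hI1, hI2, hI3⟩ := ind_main H hp (le_refl (2 * p)) ht hfree
  refine ⟨I, hI1, hI2, hI3.trans ?_⟩
  rw [Fintype.card_fin]
  have h1 : (n : ℝ) ^ (2 - 1 / (2 * (p : ℝ))) =
      (n : ℝ) ^ (1 + 1 / (2 * (p : ℝ))) * (n : ℝ) ^ (1 - 1 / (p : ℝ)) := by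
    rw [← Real.rpow_add hnR]
    congr 1
    field_simp
    ring
  have h2 : (n : ℝ) ^ (2 - 1 / (2 * (p : ℝ))) = n * (n : ℝ) ^ (1 - 1 / (2 * (p : ℝ))) := by
    rw [show (2 : ℝ) - 1 / (2 * (p : ℝ)) = 1 + (1 - 1 / (2 * (p : ℝ))) by ring, Real.rpow_add hnR,
      Real.rpow_one]
  have h3 : 2 * T * H.edgeSet.ncard * (n : ℝ) ^ (1 - 1 / (p : ℝ)) ≤
      ε / 2 * (n : ℝ) ^ (2 - 1 / (2 * (p : ℝ))) := by
    rw [h1, ← mul_assoc]
    refine mul_le_mul_of_nonneg_right ?_ (by positivity)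
    calc 2 * T * (H.edgeSet.ncard : ℝ) ≤ 2 * (T + 1) * H.edgeSet.ncard := by
          gcongr
          linarith
      _ ≤ 2 * (T + 1) * (ε / (4 * (T + 1)) * (n : ℝ) ^ (1 + 1 / (2 * (p : ℝ)))) := by
          gcongr
      _ = ε / 2 * (n : ℝ) ^ (1 + 1 / (2 * (p : ℝ))) := by
          field_simp
          ring
  have h4 : 2 * ((p : ℝ) - 1) * n ≤ ε / 2 * (n : ℝ) ^ (2 - 1 / (2 * (p : ℝ))) := by
    have h5 := hn₀ n (le_trans (le_max_left _ _) hn)
    rw [div_le_iff₀ hε] at h5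
    rw [h2]
    nlinarith
  linarith

/-- The union of cliques on the blocks of length `b`. -/
def blocks (n b : ℕ) : SimpleGraph (Fin n) where
  Adj u v := u ≠ v ∧ (u : ℕ) / b = (v : ℕ) / b
  symm := ⟨fun _ _ h => ⟨h.1.symm, h.2.symm⟩⟩
  loopless := ⟨fun _ h => h.1 rfl⟩

theorem blocks_edges (n b : ℕ) (hb : 1 ≤ b) : (blocks n b).edgeSet.ncard ≤ n * b := by
  have h1 := sum_adj (blocks n b)
  have h2 : ∀ u : Fin n, (univ.filter (fun v => (blocks n b).Adj u v)).card ≤ b := by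
    intro u
    have h3 : (univ.filter (fun v => (blocks n b).Adj u v)).card ≤ (range b).card := by
      refine Finset.card_le_card_of_injOn (fun v => (v : ℕ) % b) ?_ ?_
      · intro v _
        rw [Finset.mem_coe, Finset.mem_range]
        exact Nat.mod_lt _ hb
      · intro v hv w hw hvw
        simp only [Finset.coe_filter, Finset.mem_univ, true_and, Set.mem_ofPred_eq] at hv hw
        simp only at hvw
        have h4 : (v : ℕ) / b = (w : ℕ) / b := hv.2.symm.trans hw.2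
        have h5 := Nat.div_add_mod (v : ℕ) b
        have h6 := Nat.div_add_mod (w : ℕ) b
        rw [h4, hvw] at h5
        exact Fin.ext (h5.symm.trans h6)
    rwa [Finset.card_range] at h3
  have h7 := Finset.sum_le_sum (s := univ) fun u _ => h2 u
  rw [h1, Finset.sum_const, Finset.card_univ, Fintype.card_fin, smul_eq_mul] at h7
  omega

theorem blocks_indep (n b : ℕ) (I : Set (Fin n)) (hI : (blocks n b).IsIndepSet I) :
    I.ncard ≤ n / b + 1 := by
  have h1 : I.ncard ≤ ((range (n / b + 1) : Finset ℕ) : Set ℕ).ncard := by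
    refine Set.ncard_le_ncard_of_injOn (fun v : Fin n => (v : ℕ) / b) ?_ ?_ (Finset.finite_toSet _)
    · intro v _
      rw [Finset.mem_coe, Finset.mem_range]
      exact Nat.lt_succ_of_le (Nat.div_le_div_right v.2.le)
    · intro v hv w hw hvw
      by_contra hne
      exact hI hv hw hne ⟨hne, hvw⟩
  rwa [Set.ncard_coe_finset, Finset.card_range] at h1

/-- The threshold is sharp: a disjoint union of cliques. -/
theorem ind_sharp (r : ℕ) (hr : 2 ≤ r) (ε : ℝ) (hε : 0 < ε) :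
    ∃ (K : ℝ) (n₀ : ℕ), ∀ n : ℕ, n₀ ≤ n → ∃ H : SimpleGraph (Fin n),
      (H.edgeSet.ncard : ℝ) ≤ K * (n : ℝ) ^ (1 + 1 / (r : ℝ)) ∧
      ∀ I : Set (Fin n), H.IsIndepSet I → (I.ncard : ℝ) ≤ ε * (n : ℝ) ^ (1 - 1 / (r : ℝ)) := by
  have hrR : (2 : ℝ) ≤ r := by exact_mod_cast hr
  have hexp : 0 < 1 - 1 / (r : ℝ) := by
    rw [sub_pos, div_lt_one (by linarith)]
    linarith
  have htend : Filter.Tendsto (fun n : ℕ => (n : ℝ) ^ (1 - 1 / (r : ℝ))) Filter.atTop
      Filter.atTop := (tendsto_rpow_atTop hexp).comp tendsto_natCast_atTop_atTop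
  obtain ⟨n₀, hn₀⟩ := Filter.eventually_atTop.1 (htend.eventually_ge_atTop (2 / ε))
  refine ⟨2 / ε + 1, max n₀ 1, ?_⟩
  intro n hn
  have hn1 : 1 ≤ n := le_trans (le_max_right _ _) hn
  have hnR : (1 : ℝ) ≤ n := by exact_mod_cast hn1
  have hn0 : (0 : ℝ) < n := by linarith
  set x : ℝ := (n : ℝ) ^ (1 / (r : ℝ)) with hx
  have hx1 : 1 ≤ x := Real.one_le_rpow hnR (by positivity)
  set b : ℕ := ⌈2 / ε * x⌉₊ with hb
  have hb0 : 0 < 2 / ε * x := by positivity
  have hb1 : 1 ≤ b := Nat.one_le_iff_ne_zero.2 (Nat.ceil_pos.2 hb0).ne'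
  have hb2 : 2 / ε * x ≤ b := Nat.le_ceil _
  have hb3 : (b : ℝ) ≤ 2 / ε * x + 1 := (Nat.ceil_lt_add_one hb0.le).le
  have hpow : (n : ℝ) ^ (1 + 1 / (r : ℝ)) = n * x := by
    rw [Real.rpow_add hn0, Real.rpow_one]
  have hpow2 : (n : ℝ) ^ (1 - 1 / (r : ℝ)) = n / x := by
    rw [Real.rpow_sub hn0, Real.rpow_one]
  refine ⟨blocks n b, ?_, ?_⟩
  · have h1 : ((blocks n b).edgeSet.ncard : ℝ) ≤ n * b := by exact_mod_cast blocks_edges n b hb1
    rw [hpow]
    have h2 : (b : ℝ) ≤ (2 / ε + 1) * x := by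
      rw [add_mul, one_mul]
      linarith
    calc ((blocks n b).edgeSet.ncard : ℝ) ≤ n * b := h1
      _ ≤ n * ((2 / ε + 1) * x) := by gcongr
      _ = _ := by ring
  · intro I hI
    have h1 : (I.ncard : ℝ) ≤ (n / b : ℕ) + 1 := by exact_mod_cast blocks_indep n b I hI
    have h2 : ((n / b : ℕ) : ℝ) ≤ n / b := Nat.cast_div_le
    have h3 : (n : ℝ) / b ≤ ε / 2 * (n : ℝ) ^ (1 - 1 / (r : ℝ)) := by
      rw [hpow2]
      have hbR : (0 : ℝ) < b := by exact_mod_cast hb1
      rw [div_le_iff₀ hbR]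
      calc (n : ℝ) = ε / 2 * (n / x) * (2 / ε * x) := by
            field_simp
        _ ≤ ε / 2 * (n / x) * b := by gcongr
    have h4 : (1 : ℝ) ≤ ε / 2 * (n : ℝ) ^ (1 - 1 / (r : ℝ)) := by
      have h5 := hn₀ n (le_trans (le_max_left _ _) hn)
      rw [div_le_iff₀ hε] at h5
      linarith
    linarith

end Pool.Agent.Run7.h515.SU
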