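import Pool.Agent.Run7.h515.SU.Conv

/-!
# Graphs without `K_{s,t}` and supports of the neighbourhoods
-/

set_option autoImplicit false

namespace Pool.Agent.Run7.h515.SU

open SimpleGraph Finset
open scoped Classical

/-- Spanning forest: all vertices but one in each component have a parent. -/
theorem exists_parent {U : Type*} [Fintype U] (F : SimpleGraph U) :
    ∃ (P : Finset U) (π : U → U) (d : U → ℕ), (∀ y ∈ P, F.Adj y (π y) ∧ d (π y) < d y) ∧
      Fintype.card U ≤ P.card + Nat.card F.ConnectedComponent := by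
  let r : U → U := fun y => Quot.out (F.connectedComponentMk y)
  have hr : ∀ y, F.Reachable y (r y) := fun y =>
    (ConnectedComponent.exact (Quot.out_eq (F.connectedComponentMk y))).symm
  have hstep : ∀ y, y ≠ r y → ∃ w, F.Adj y w ∧ F.dist w (r w) < F.dist y (r y) := by
    intro y hy
    obtain ⟨p, hp⟩ := (hr y).exists_walk_length_eq_dist
    rcases Walk.exists_eq_cons_of_ne hy p with ⟨w, h, q, hq⟩
    refine ⟨w, h, ?_⟩
    have h1 : r w = r y := by
      show Quot.out (F.connectedComponentMk w) = Quot.out (F.connectedComponentMk y)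
      rw [ConnectedComponent.sound h.reachable]
    rw [h1, ← hp, hq, Walk.length_cons]
    exact Nat.lt_succ_of_le (dist_le q)
  let π : U → U := fun y => if h : y ≠ r y then (hstep y h).choose else y
  refine ⟨univ.filter (fun y => y ≠ r y), π, fun y => F.dist y (r y), ?_, ?_⟩
  · intro y hy
    rw [Finset.mem_filter] at hy
    have h1 : π y = (hstep y hy.2).choose := dif_pos hy.2
    rw [h1]
    exact (hstep y hy.2).choose_spec
  · have : Finite F.ConnectedComponent := Quot.finite _
    let _ : Fintype F.ConnectedComponent := Fintype.ofFinite _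
    have h1 := Finset.card_filter_add_card_filter_not (s := (univ : Finset U)) (fun y => y ≠ r y)
    rw [Finset.card_univ] at h1
    rw [← h1]
    refine Nat.add_le_add_left ?_ _
    rw [Nat.card_eq_fintype_card, ← Finset.card_univ]
    refine Finset.card_le_card_of_injOn (fun y => F.connectedComponentMk y)
      (fun _ _ => Finset.mem_coe.2 (Finset.mem_univ _)) ?_
    intro y hy z hz hyz
    simp only [Finset.coe_filter, Finset.mem_univ, true_and, not_not, Set.mem_ofPred_eq] at hy hz
    simp only at hyz
    rw [hy, hz]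
    show Quot.out (F.connectedComponentMk y) = Quot.out (F.connectedComponentMk z)
    rw [hyz]

/-- Two large completely joined sets. -/
theorem not_free_of_sets {V : Type*} (G : SimpleGraph V) (s t : ℕ) (S T : Finset V)
    (hS : s ≤ S.card) (hT : t ≤ T.card) (h : ∀ u ∈ S, ∀ v ∈ T, G.Adj u v) :
    ¬ (completeBipartiteGraph (Fin s) (Fin t)).Free G := by
  intro hfree
  apply hfree
  obtain ⟨f⟩ : Nonempty (Fin s ↪ S) := Function.Embedding.nonempty_of_card_le (by simpa using hS)
  obtain ⟨g⟩ : Nonempty (Fin t ↪ T) := Function.Embedding.nonempty_of_card_le (by simpa using hT)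
  refine ⟨⟨⟨Sum.elim (fun i => (f i : V)) (fun j => (g j : V)), ?_⟩, ?_⟩⟩
  · rintro (i | i) (j | j) hij
    · simp at hij
    · exact h _ (f i).2 _ (g j).2
    · exact (h _ (f j).2 _ (g i).2).symm
    · simp at hij
  · rintro (i | i) (j | j) hij
    · exact congrArg Sum.inl (f.injective (Subtype.ext hij))
    · exact absurd hij (h _ (f i).2 _ (g j).2).ne
    · exact absurd hij.symm (h _ (f j).2 _ (g i).2).ne
    · exact congrArg Sum.inr (g.injective (Subtype.ext hij))

variable {V : Type*} [Fintype V]

/-- The vertices of a set of edges. -/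
noncomputable def cover (T : Finset (Sym2 V)) : Finset V := univ.filter (fun v => ∃ e ∈ T, v ∈ e)

/-- The forest in a set `N`. -/
theorem exists_forest (H : SimpleGraph V) (N : Set V) :
    ∃ F : Finset (Sym2 V), (F : Set (Sym2 V)) ⊆ H.edgeSet ∧
      N.ncard ≤ F.card + Nat.card (H.induce N).ConnectedComponent ∧
      ∀ T ⊆ F, T.Nonempty → (cover T : Set V) ⊆ N ∧ T.card + 1 ≤ (cover T).card := by
  obtain ⟨P, π, d, hP, hcard⟩ := exists_parent (H.induce N)
  let e : N → Sym2 V := fun y => s((y : V), (π y : V))
  have hinj : ∀ y ∈ P, ∀ z ∈ P, e y = e z → y = z := by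
    intro y hy z hz hyz
    rcases Sym2.eq_iff.1 hyz with h | h
    · exact Subtype.ext h.1
    · have h1 : y = π z := Subtype.ext h.1
      have h2 : π y = z := Subtype.ext h.2
      have h3 := (hP y hy).2
      have h4 := (hP z hz).2
      rw [h2] at h3
      rw [← h1] at h4
      omega
  refine ⟨P.image e, ?_, ?_, ?_⟩
  · intro x hx
    rw [Finset.mem_coe, Finset.mem_image] at hx
    obtain ⟨y, hy, rfl⟩ := hx
    exact (hP y hy).1
  · rw [Finset.card_image_of_injOn (fun y hy z hz h => hinj y hy z hz h)]
    rwa [← Nat.card_coe_set_eq, Nat.card_eq_fintype_card]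
  · intro T hT hne
    refine ⟨?_, ?_⟩
    · intro v hv
      unfold cover at hv
      simp only [Finset.coe_filter, Finset.mem_univ, true_and, Set.mem_ofPred_eq] at hv
      obtain ⟨x, hx, hvx⟩ := hv
      obtain ⟨y, -, rfl⟩ := Finset.mem_image.1 (hT hx)
      rcases Sym2.mem_iff.1 hvx with h | h
      · rw [h]; exact y.2
      · rw [h]; exact (π y).2
    · -- the children
      set Q := P.filter (fun y => e y ∈ T) with hQ
      have hTQ : T = Q.image e := by
        ext x
        rw [Finset.mem_image]
        constructor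
        · intro hx
          obtain ⟨y, hy, rfl⟩ := Finset.mem_image.1 (hT hx)
          exact ⟨y, Finset.mem_filter.2 ⟨hy, hx⟩, rfl⟩
        · rintro ⟨y, hy, rfl⟩
          exact (Finset.mem_filter.1 hy).2
      have hTc : T.card = Q.card := by
        rw [hTQ]
        exact Finset.card_image_of_injOn (fun y hy z hz h =>
          hinj y (Finset.mem_filter.1 hy).1 z (Finset.mem_filter.1 hz).1 h)
      have hQne : Q.Nonempty := by
        rw [← Finset.card_pos, ← hTc]
        exact Finset.card_pos.2 hne
      obtain ⟨y₀, hy₀, hmin⟩ := Finset.exists_min_image Q d hQne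
      have hnot : π y₀ ∉ Q := by
        intro h
        have h1 := hmin _ h
        have h2 := (hP y₀ (Finset.mem_filter.1 hy₀).1).2
        omega
      have hsub : (insert (π y₀) Q).image (fun y : N => (y : V)) ⊆ cover T := by
        intro v hv
        rw [Finset.mem_image] at hv
        obtain ⟨y, hy, rfl⟩ := hv
        unfold cover
        rw [Finset.mem_filter]
        refine ⟨Finset.mem_univ _, ?_⟩
        rcases Finset.mem_insert.1 hy with h | h
        · rw [h]
          exact ⟨e y₀, (Finset.mem_filter.1 hy₀).2, Sym2.mem_iff.2 (Or.inr rfl)⟩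
        · exact ⟨e y, (Finset.mem_filter.1 h).2, Sym2.mem_iff.2 (Or.inl rfl)⟩
      refine le_trans ?_ (Finset.card_le_card hsub)
      rw [Finset.card_image_of_injective _ Subtype.val_injective, Finset.card_insert_of_notMem hnot,
        hTc]

/-- The main count, for the forests. -/
theorem forest_count {G : SimpleGraph V} {s t : ℕ} (hs : 2 ≤ s) (ht : 1 ≤ t)
    (hfree : (completeBipartiteGraph (Fin s) (Fin t)).Free G) (E : Finset (Sym2 V))
    (A : Finset V) (F : V → Finset (Sym2 V)) (hF : ∀ x, F x ⊆ E)
    (hcov : ∀ x, ∀ T ⊆ F x, T.Nonempty → (cover T : Set V) ⊆ G.neighborSet x ∧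
      T.card + 1 ≤ (cover T).card) :
    ∑ x ∈ A, ((F x).card + 1 - (s - 1)) ^ (s - 1) ≤ (t - 1) * E.card ^ (s - 1) := by
  have h1 : ∀ T ∈ E.powersetCard (s - 1),
      (A.filter (fun x => T ⊆ F x)).card ≤ t - 1 := by
    intro T hT
    rw [Finset.mem_powersetCard] at hT
    by_contra hlt
    push Not at hlt
    have hne : T.Nonempty := Finset.card_pos.1 (by omega)
    have hx : (A.filter (fun x => T ⊆ F x)).Nonempty := Finset.card_pos.1 (by omega)
    obtain ⟨x₀, hx₀⟩ := hx
    have h2 := (hcov x₀ T (Finset.mem_filter.1 hx₀).2 hne).2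
    refine not_free_of_sets G s t (cover T) (A.filter (fun x => T ⊆ F x)) (by omega) (by omega)
      ?_ hfree
    intro u hu x hx
    exact ((hcov x T (Finset.mem_filter.1 hx).2 hne).1 hu : G.Adj x u).symm
  have h2 : ∑ x ∈ A, (F x).card.choose (s - 1) ≤ (t - 1) * E.card.choose (s - 1) := by
    have h3 : ∀ x ∈ A, (F x).card.choose (s - 1) =
        ∑ T ∈ E.powersetCard (s - 1), if T ⊆ F x then 1 else 0 := by
      intro x _
      rw [← Finset.card_powersetCard, ← Finset.card_filter]
      congr 1
      ext T
      rw [Finset.mem_filter, Finset.mem_powersetCard, Finset.mem_powersetCard]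
      exact ⟨fun h => ⟨⟨h.1.trans (hF x), h.2⟩, h.1⟩, fun h => ⟨h.2, h.1.2⟩⟩
    rw [Finset.sum_congr rfl h3, Finset.sum_comm, ← Finset.card_powersetCard, mul_comm,
      ← smul_eq_mul, ← Finset.sum_const]
    refine Finset.sum_le_sum fun T hT => ?_
    rw [← Finset.card_filter]
    exact h1 T hT
  have h4 : ∀ x ∈ A, ((F x).card + 1 - (s - 1)) ^ (s - 1) ≤
      (s - 1).factorial * (F x).card.choose (s - 1) := by
    intro x _
    rw [← Nat.descFactorial_eq_factorial_mul_choose]
    exact Nat.pow_sub_le_descFactorial _ _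
  refine (Finset.sum_le_sum h4).trans ?_
  rw [← Finset.mul_sum]
  calc (s - 1).factorial * ∑ x ∈ A, (F x).card.choose (s - 1)
      ≤ (s - 1).factorial * ((t - 1) * E.card.choose (s - 1)) := Nat.mul_le_mul_left _ h2
    _ = (t - 1) * E.card.descFactorial (s - 1) := by
        rw [Nat.descFactorial_eq_factorial_mul_choose]; ring
    _ ≤ (t - 1) * E.card ^ (s - 1) :=
        Nat.mul_le_mul_left _ (Nat.descFactorial_le_pow _ _)

/-- The main bound for graphs without `K_{s,t}`. -/
theorem kst_main {G H : SimpleGraph V} {s t : ℕ} (hs : 2 ≤ s) (ht : 1 ≤ t)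
    (hfree : (completeBipartiteGraph (Fin s) (Fin t)).Free G) (A : Finset V) :
    (∑ x ∈ A, ((G.neighborSet x).ncard -
      Nat.card (H.induce (G.neighborSet x)).ConnectedComponent - (s - 2))) ^ (s - 1) ≤
      (t - 1) * A.card ^ (s - 2) * H.edgeSet.ncard ^ (s - 1) := by
  have hch := fun x => exists_forest H (G.neighborSet x)
  choose F hF1 hF2 hF3 using hch
  have h1 := forest_count hs ht hfree H.edgeFinset A F
    (fun x => by
      intro e he
      rw [SimpleGraph.mem_edgeFinset]
      exact hF1 x he) hF3
  have h2 : H.edgeFinset.card = H.edgeSet.ncard := by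
    rw [← Set.ncard_coe_finset, SimpleGraph.coe_edgeFinset]
  rw [h2] at h1
  have h3 : ∑ x ∈ A, ((G.neighborSet x).ncard -
      Nat.card (H.induce (G.neighborSet x)).ConnectedComponent - (s - 2)) ^ (s - 1) ≤
      (t - 1) * H.edgeSet.ncard ^ (s - 1) := by
    refine le_trans (Finset.sum_le_sum fun x _ => Nat.pow_le_pow_left ?_ _) h1
    have := hF2 x
    omega
  have h4 := pow_sum_le_card_mul_sum_pow (s := A) (f := fun x => ((G.neighborSet x).ncard -
      Nat.card (H.induce (G.neighborSet x)).ConnectedComponent - (s - 2)))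
      (fun x _ => Nat.zero_le _) (s - 2)
  have h5 : s - 2 + 1 = s - 1 := by omega
  rw [h5] at h4
  refine h4.trans ?_
  calc A.card ^ (s - 2) * ∑ x ∈ A, ((G.neighborSet x).ncard -
      Nat.card (H.induce (G.neighborSet x)).ConnectedComponent - (s - 2)) ^ (s - 1)
      ≤ A.card ^ (s - 2) * ((t - 1) * H.edgeSet.ncard ^ (s - 1)) := Nat.mul_le_mul_left _ h3
    _ = _ := by ring

end Pool.Agent.Run7.h515.SU
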