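import Pool.Agent.Run7.h515.SU.Kst
import Pool.Agent.Y384.DM.Cone

/-!
# Graphs without `K_{s,t}` and supports of the neighbourhoods: orders of magnitude
-/

set_option autoImplicit false

namespace Pool.Agent.Run7.h515.SU

open SimpleGraph Finset
open scoped Classical

/-- The bound for the number of edges. -/
theorem kst_edges {V : Type*} [Fintype V] {G H : SimpleGraph V} {s t : ℕ} (hs : 2 ≤ s)
    (ht : 1 ≤ t) (hfree : (completeBipartiteGraph (Fin s) (Fin t)).Free G) :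
    2 * (G.edgeSet.ncard : ℝ) ≤
      ((t : ℝ) - 1) ^ (1 / ((s : ℝ) - 1)) * H.edgeSet.ncard *
        (Fintype.card V : ℝ) ^ (1 - 1 / ((s : ℝ) - 1)) +
      ∑ x, (Nat.card (H.induce (G.neighborSet x)).ConnectedComponent : ℝ) +
      ((s : ℝ) - 2) * Fintype.card V := by
  have h0 := kst_main (H := H) hs ht hfree univ
  set Q := ∑ x, ((G.neighborSet x).ncard -
      Nat.card (H.induce (G.neighborSet x)).ConnectedComponent - (s - 2)) with hQ
  obtain ⟨p, rfl⟩ : ∃ p, s = p + 1 := ⟨s - 1, by omega⟩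
  have hp1 : 1 ≤ p := by omega
  obtain ⟨q, rfl⟩ : ∃ q, p = q + 1 := ⟨p - 1, by omega⟩
  obtain ⟨r, rfl⟩ : ∃ r, t = r + 1 := ⟨t - 1, by omega⟩
  have e1 : q + 1 + 1 - 1 = q + 1 := by omega
  have e2 : q + 1 + 1 - 2 = q := by omega
  have e3 : r + 1 - 1 = r := by omega
  rw [e1, e2, e3, Finset.card_univ] at h0
  have hpR : (0 : ℝ) < ((q + 1 : ℕ) : ℝ) := by exact_mod_cast (by omega : 0 < q + 1)
  have e4 : (((q + 1 + 1 : ℕ) : ℝ) - 1) = ((q + 1 : ℕ) : ℝ) := by push_cast; ring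
  have e5 : (((r + 1 : ℕ) : ℝ) - 1) = (r : ℝ) := by push_cast; ring
  rw [e4, e5]
  have hroot : (Q : ℝ) ≤ (r : ℝ) ^ (1 / ((q + 1 : ℕ) : ℝ)) * H.edgeSet.ncard *
      (Fintype.card V : ℝ) ^ (1 - 1 / ((q + 1 : ℕ) : ℝ)) := by
    refine le_of_pow_le_pow_left₀ (n := q + 1) (by omega) (by positivity) ?_
    rw [mul_pow, mul_pow]
    have h1 : ((r : ℝ) ^ (1 / ((q + 1 : ℕ) : ℝ))) ^ (q + 1) = r := by
      rw [← Real.rpow_natCast, ← Real.rpow_mul (Nat.cast_nonneg _), one_div,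
        inv_mul_cancel₀ hpR.ne', Real.rpow_one]
    have h2 : ((Fintype.card V : ℝ) ^ (1 - 1 / ((q + 1 : ℕ) : ℝ))) ^ (q + 1) =
        (Fintype.card V : ℝ) ^ q := by
      rw [← Real.rpow_natCast, ← Real.rpow_mul (Nat.cast_nonneg _), ← Real.rpow_natCast _ q]
      congr 1
      rw [sub_mul, one_div, inv_mul_cancel₀ hpR.ne']
      push_cast
      ring
    rw [h1, h2]
    have h3 : ((Q ^ (q + 1) : ℕ) : ℝ) ≤
        ((r * Fintype.card V ^ q * H.edgeSet.ncard ^ (q + 1) : ℕ) : ℝ) := by exact_mod_cast h0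
    push_cast at h3
    calc (Q : ℝ) ^ (q + 1) ≤ r * (Fintype.card V : ℝ) ^ q * (H.edgeSet.ncard : ℝ) ^ (q + 1) := h3
      _ = _ := by ring
  have hdeg : 2 * G.edgeSet.ncard = ∑ x, (G.neighborSet x).ncard := by
    rw [← sum_adj G]
    refine Finset.sum_congr rfl fun u _ => ?_
    rw [← Set.ncard_coe_finset]
    congr 1
    ext y
    simp
  have hsum : 2 * G.edgeSet.ncard ≤ Q +
      ∑ x, Nat.card (H.induce (G.neighborSet x)).ConnectedComponent + q * Fintype.card V := by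
    rw [hdeg, hQ]
    have h5 : ∑ _x : V, q = q * Fintype.card V := by
      rw [Finset.sum_const, Finset.card_univ, smul_eq_mul, mul_comm]
    rw [← h5, ← Finset.sum_add_distrib, ← Finset.sum_add_distrib]
    refine Finset.sum_le_sum fun x _ => ?_
    omega
  have hsumR : 2 * (G.edgeSet.ncard : ℝ) ≤ Q +
      ∑ x, (Nat.card (H.induce (G.neighborSet x)).ConnectedComponent : ℝ) +
        q * Fintype.card V := by
    exact_mod_cast hsum
  have e6 : (((q + 1 + 1 : ℕ) : ℝ) - 2) = (q : ℝ) := by push_cast; ring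
  rw [e6]
  linarith

/-- Graphs of the order in the question need supports with many edges. -/
theorem kst_order (s t : ℕ) (hs : 2 ≤ s) (ht : 1 ≤ t) (c : ℝ) (hc : 0 < c) :
    ∃ (c' : ℝ) (n₀ : ℕ), 0 < c' ∧ ∀ n : ℕ, n₀ ≤ n → ∀ G H : SimpleGraph (Fin n),
      (completeBipartiteGraph (Fin s) (Fin t)).Free G →
      (∀ x, (H.induce (G.neighborSet x)).Preconnected) →
      c * (n : ℝ) ^ (2 - 1 / (s : ℝ)) ≤ G.edgeSet.ncard →
      c' * (n : ℝ) ^ (1 + 1 / ((s : ℝ) * ((s : ℝ) - 1))) ≤ H.edgeSet.ncard := by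
  have hsR : (2 : ℝ) ≤ s := by exact_mod_cast hs
  have htR : (1 : ℝ) ≤ t := by exact_mod_cast ht
  set T : ℝ := ((t : ℝ) - 1) ^ (1 / ((s : ℝ) - 1)) with hT
  have hT0 : 0 ≤ T := Real.rpow_nonneg (by linarith) _
  have hs0 : (0 : ℝ) < s := by linarith
  have hs1 : (0 : ℝ) < (s : ℝ) - 1 := by linarith
  have hexp : 0 < 1 - 1 / (s : ℝ) := by
    rw [sub_pos, div_lt_one hs0]
    linarith
  have htend : Filter.Tendsto (fun n : ℕ => (n : ℝ) ^ (1 - 1 / (s : ℝ))) Filter.atTop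
      Filter.atTop := (tendsto_rpow_atTop hexp).comp tendsto_natCast_atTop_atTop
  obtain ⟨n₀, hn₀⟩ := Filter.eventually_atTop.1 (htend.eventually_ge_atTop (((s : ℝ) - 1) / c))
  refine ⟨c / (T + 1), max n₀ 1, by positivity, ?_⟩
  intro n hn G H hfree hconn hE
  have hn1 : 1 ≤ n := le_trans (le_max_right _ _) hn
  have hnR : (0 : ℝ) < n := by exact_mod_cast hn1
  have h1 := kst_edges (H := H) hs ht hfree
  rw [Fintype.card_fin] at h1
  have h2 : ∑ x, (Nat.card (H.induce (G.neighborSet x)).ConnectedComponent : ℝ) ≤ n := by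
    have h3 : ∑ x, Nat.card (H.induce (G.neighborSet x)).ConnectedComponent ≤ n := by
      refine (Finset.sum_le_sum fun x _ => card_component_le (hconn x)).trans ?_
      simp
    exact_mod_cast h3
  have h4 : ((s : ℝ) - 1) * n ≤ c * (n : ℝ) ^ (2 - 1 / (s : ℝ)) := by
    have h5 : (n : ℝ) ^ (2 - 1 / (s : ℝ)) = n * (n : ℝ) ^ (1 - 1 / (s : ℝ)) := by
      rw [show (2 : ℝ) - 1 / (s : ℝ) = 1 + (1 - 1 / (s : ℝ)) by ring, Real.rpow_add hnR,
        Real.rpow_one]
    have h6 := hn₀ n (le_trans (le_max_left _ _) hn)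
    rw [div_le_iff₀ hc] at h6
    rw [h5]
    nlinarith
  set m : ℝ := ((H.edgeSet.ncard : ℕ) : ℝ) with hm
  have hm0 : 0 ≤ m := Nat.cast_nonneg _
  have h7 : c * (n : ℝ) ^ (2 - 1 / (s : ℝ)) ≤ (T + 1) * m * (n : ℝ) ^ (1 - 1 / ((s : ℝ) - 1)) := by
    have h8 : T * m * (n : ℝ) ^ (1 - 1 / ((s : ℝ) - 1)) ≤
        (T + 1) * m * (n : ℝ) ^ (1 - 1 / ((s : ℝ) - 1)) := by
      gcongr
      linarith
    have h9 : c * (n : ℝ) ^ (2 - 1 / (s : ℝ)) ≤ G.edgeSet.ncard := hE
    nlinarith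
  have h10 : (n : ℝ) ^ (2 - 1 / (s : ℝ)) = (n : ℝ) ^ (1 + 1 / ((s : ℝ) * ((s : ℝ) - 1))) *
      (n : ℝ) ^ (1 - 1 / ((s : ℝ) - 1)) := by
    rw [← Real.rpow_add hnR]
    congr 1
    field_simp
    ring
  rw [h10, ← mul_assoc] at h7
  have h11 := le_of_mul_le_mul_right h7 (by positivity)
  rw [div_mul_eq_mul_div, div_le_iff₀ (by positivity)]
  linarith

/-- The sharpness of the exponent. -/
theorem kst_sharp (s t : ℕ) (hs : 3 ≤ s) (ht : (s - 2).factorial + 2 ≤ t) (n : ℕ)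
    (hn : 2 ^ (2 * s) ≤ n) :
    ∃ G H : SimpleGraph (Fin n), (completeBipartiteGraph (Fin s) (Fin t)).Free G ∧
      (∀ x, (H.induce (G.neighborSet x)).Preconnected) ∧ H.edgeSet.ncard ≤ 2 * n ∧
      (n : ℝ) ^ (2 - 1 / ((s : ℝ) - 1)) ≤ 2 ^ (2 * s) * G.edgeSet.ncard := by
  obtain ⟨G, z, h1, h2, h3⟩ := Pool.Agent.Y384.DM.lower_bip s t hs ht n hn
  have hn2 : 2 ≤ n := by
    refine le_trans ?_ hn
    calc 2 = 2 ^ 1 := by norm_num
      _ ≤ 2 ^ (2 * s) := Nat.pow_le_pow_right (by norm_num) (by omega)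
  obtain ⟨w, hw⟩ : ∃ w : Fin n, w ≠ z := by
    have : Nontrivial (Fin n) := Fin.nontrivial_iff_two_le.2 hn2
    exact exists_ne z
  let H : SimpleGraph (Fin n) :=
    { Adj := fun u v => u ≠ v ∧ (u = z ∨ v = z ∨ u = w ∨ v = w)
      symm := ⟨fun u v h => ⟨h.1.symm, by tauto⟩⟩
      loopless := ⟨fun u h => h.1 rfl⟩ }
  have hroot : ∀ (N : Set (Fin n)) (a : Fin n) (ha : a ∈ N), (a = z ∨ a = w) →
      (H.induce N).Preconnected := by
    intro N a ha haz
    have h4 : ∀ u : N, (H.induce N).Reachable ⟨a, ha⟩ u := by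
      intro u
      by_cases h : a = u
      · have : u = ⟨a, ha⟩ := Subtype.ext h.symm
        rw [this]
      · apply Adj.reachable
        show H.Adj a u
        exact ⟨h, by tauto⟩
    intro u v
    exact (h4 u).symm.trans (h4 v)
  refine ⟨G, H, h1, ?_, ?_, h3⟩
  · intro x
    by_cases hx : x = z
    · subst hx
      exact hroot _ w (h2 w hw) (Or.inr rfl)
    · exact hroot _ z (h2 x hx).symm (Or.inl rfl)
  · have h4 : H.edgeSet ⊆ (((univ.image (fun v : Fin n => s(z, v))) ∪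
        (univ.image (fun v : Fin n => s(w, v))) : Finset (Sym2 (Fin n))) :
          Set (Sym2 (Fin n))) := by
      intro e
      induction e using Sym2.ind with
      | h u v =>
        intro he
        rw [SimpleGraph.mem_edgeSet] at he
        rw [Finset.mem_coe, Finset.mem_union, Finset.mem_image, Finset.mem_image]
        rcases he with ⟨-, he | he | he | he⟩
        · exact Or.inl ⟨v, Finset.mem_univ _, by rw [he]⟩
        · exact Or.inl ⟨u, Finset.mem_univ _, by rw [he, Sym2.eq_swap]⟩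
        · exact Or.inr ⟨v, Finset.mem_univ _, by rw [he]⟩
        · exact Or.inr ⟨u, Finset.mem_univ _, by rw [he, Sym2.eq_swap]⟩
    refine (Set.ncard_le_ncard h4 (Finset.finite_toSet _)).trans ?_
    rw [Set.ncard_coe_finset]
    refine (Finset.card_union_le _ _).trans ?_
    have h5 := Finset.card_image_le (s := (univ : Finset (Fin n))) (f := fun v => s(z, v))
    have h6 := Finset.card_image_le (s := (univ : Finset (Fin n))) (f := fun v => s(w, v))
    rw [Finset.card_univ, Fintype.card_fin] at h5 h6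
    omega

end Pool.Agent.Run7.h515.SU
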